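import Mathlib

set_option autoImplicit false

/-! Integer points in the boxes `|v 0| ≤ X`, `|v 0 * α - v 1| ≤ Y`, `|v 0 * x - v 2| ≤ Z`: their number is
at most `750 X Y Z` or at most `(2 M + 1) ^ 2` if the box contracted by `2 / M` contains only zero. -/

namespace Pool.Agent.KS6_31.DB

/-- The determinant of three integer vectors. -/
def dt (u v w : Fin 3 → ℤ) : ℤ :=
  u 0 * (v 1 * w 2 - v 2 * w 1) - u 1 * (v 0 * w 2 - v 2 * w 0) + u 2 * (v 0 * w 1 - v 1 * w 0)

/-- The coordinates of the cross product. -/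
def cr (k : Fin 3) (u v : Fin 3 → ℤ) : ℤ :=
  ![u 1 * v 2 - u 2 * v 1, u 2 * v 0 - u 0 * v 2, u 0 * v 1 - u 1 * v 0] k

lemma abs_det_le {X Y Z u0 u1 u2 v0 v1 v2 w0 w1 w2 : ℝ} (hu0 : |u0| ≤ X) (hu1 : |u1| ≤ Y) (hu2 : |u2| ≤ Z)
    (hv0 : |v0| ≤ X) (hv1 : |v1| ≤ Y) (hv2 : |v2| ≤ Z) (hw0 : |w0| ≤ X) (hw1 : |w1| ≤ Y)
    (hw2 : |w2| ≤ Z) :
    |u0 * (v1 * w2 - v2 * w1) - u1 * (v0 * w2 - v2 * w0) + u2 * (v0 * w1 - v1 * w0)| ≤
      6 * (X * Y * Z) := by
  have X0 : 0 ≤ X := (abs_nonneg _).trans hu0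
  have Y0 : 0 ≤ Y := (abs_nonneg _).trans hu1
  have Z0 : 0 ≤ Z := (abs_nonneg _).trans hu2
  have key : ∀ {a b c A B C : ℝ}, 0 ≤ A → 0 ≤ B → 0 ≤ C → |a| ≤ A → |b| ≤ B → |c| ≤ C →
      |a * b * c| ≤ A * B * C := by
    intro a b c A B C hA hB hC ha hb hc
    rw [abs_mul, abs_mul]
    gcongr
  have e : u0 * (v1 * w2 - v2 * w1) - u1 * (v0 * w2 - v2 * w0) + u2 * (v0 * w1 - v1 * w0) =
      u0 * v1 * w2 - u0 * w1 * v2 - v0 * u1 * w2 + w0 * u1 * v2 + v0 * w1 * u2 - w0 * v1 * u2 := by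
    ring
  rw [e]
  have h1 := abs_le.1 (key X0 Y0 Z0 hu0 hv1 hw2)
  have h2 := abs_le.1 (key X0 Y0 Z0 hu0 hw1 hv2)
  have h3 := abs_le.1 (key X0 Y0 Z0 hv0 hu1 hw2)
  have h4 := abs_le.1 (key X0 Y0 Z0 hw0 hu1 hv2)
  have h5 := abs_le.1 (key X0 Y0 Z0 hv0 hw1 hu2)
  have h6 := abs_le.1 (key X0 Y0 Z0 hw0 hv1 hu2)
  rw [abs_le]
  constructor <;> linarith [h1.1, h1.2, h2.1, h2.2, h3.1, h3.2, h4.1, h4.2, h5.1, h5.2, h6.1, h6.2]

/-- Points with bounded coordinates with respect to three independent ones. -/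
lemma card_rank3 (S : Finset (Fin 3 → ℤ)) (u v w : Fin 3 → ℤ) (hD : dt u v w ≠ 0)
    (h : ∀ s ∈ S, |dt s v w| ≤ |dt u v w| ∧ |dt u s w| ≤ |dt u v w| ∧ |dt u v s| ≤ |dt u v w|) :
    (S.card : ℤ) ≤ 125 * |dt u v w| := by
  classical
  set b : Fin 3 → (Fin 3 → ℤ) := ![u, v, w] with hb
  have hdet : Matrix.det (Matrix.of b) = dt u v w := by
    rw [Matrix.det_fin_three]
    simp [hb, dt]
    ring
  have hli : LinearIndependent ℤ b := by
    have := Matrix.linearIndependent_rows_of_det_ne_zero (A := Matrix.of b) (by rw [hdet]; exact hD)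
    exact this
  set N : Submodule ℤ (Fin 3 → ℤ) := Submodule.span ℤ (Set.range b) with hN
  have hcard : Nat.card ((Fin 3 → ℤ) ⧸ N) = (dt u v w).natAbs := by
    have h1 := Submodule.natAbs_det_basis_change (Pi.basisFun ℤ (Fin 3)) N (Module.Basis.span hli)
    rw [← h1]
    congr 1
    have e : ((↑) ∘ (Module.Basis.span hli) : Fin 3 → (Fin 3 → ℤ)) = b := by
      ext i
      simp
    rw [e, Pi.basisFun_det, ← hdet]
    rfl
  have hfin : Finite ((Fin 3 → ℤ) ⧸ N) := by
    apply Nat.finite_of_card_ne_zero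
    rw [hcard]
    simpa using hD
  have : Fintype ((Fin 3 → ℤ) ⧸ N) := Fintype.ofFinite _
  have hc2 : (S.image (fun s => (Submodule.Quotient.mk s : (Fin 3 → ℤ) ⧸ N))).card ≤
      (dt u v w).natAbs := by
    rw [← hcard, Nat.card_eq_fintype_card]
    exact Finset.card_le_univ _
  have hfib : ∀ a ∈ S.image (fun s => (Submodule.Quotient.mk s : (Fin 3 → ℤ) ⧸ N)),
      (S.filter (fun s => (Submodule.Quotient.mk s : (Fin 3 → ℤ) ⧸ N) = a)).card ≤ 125 := by
    intro a ha
    obtain ⟨s0, hs0, rfl⟩ := Finset.mem_image.1 ha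
    have hx : ∀ s ∈ S.filter (fun s => (Submodule.Quotient.mk s : (Fin 3 → ℤ) ⧸ N) =
        Submodule.Quotient.mk s0), ∃ c : Fin 3 → ℤ, (∀ i, -2 ≤ c i ∧ c i ≤ 2) ∧
        s = s0 + (c 0 • u + c 1 • v + c 2 • w) := by
      intro s hs
      obtain ⟨hs1, hs2⟩ := Finset.mem_filter.1 hs
      have h1 : s - s0 ∈ N := (Submodule.Quotient.eq N).1 hs2
      obtain ⟨c, hc⟩ := (Submodule.mem_span_range_iff_exists_fun ℤ).1 h1
      have hc' : s = s0 + (c 0 • u + c 1 • v + c 2 • w) := by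
        have : c 0 • u + c 1 • v + c 2 • w = s - s0 := by
          rw [← hc, Fin.sum_univ_three]
          simp [hb]
        rw [this]
        abel
      refine ⟨c, ?_, hc'⟩
      have hcoord : ∀ i, s i = s0 i + (c 0 * u i + c 1 * v i + c 2 * w i) := by
        intro i
        rw [hc']
        simp
      have e0 : dt s v w = dt s0 v w + c 0 * dt u v w := by
        unfold dt
        rw [hcoord 0, hcoord 1, hcoord 2]
        ring
      have e1 : dt u s w = dt u s0 w + c 1 * dt u v w := by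
        unfold dt
        rw [hcoord 0, hcoord 1, hcoord 2]
        ring
      have e2 : dt u v s = dt u v s0 + c 2 * dt u v w := by
        unfold dt
        rw [hcoord 0, hcoord 1, hcoord 2]
        ring
      have hpos : 0 < |dt u v w| := abs_pos.2 hD
      have fin : ∀ {x y z : ℤ}, y = x + z * dt u v w → |y| ≤ |dt u v w| → |x| ≤ |dt u v w| →
          -2 ≤ z ∧ z ≤ 2 := by
        intro x y z e hy hx
        have h2 : |z| * |dt u v w| ≤ 2 * |dt u v w| := by
          rw [← abs_mul]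
          have : z * dt u v w = y - x := by linarith
          rw [this]
          calc |y - x| ≤ |y| + |x| := abs_sub _ _
            _ ≤ 2 * |dt u v w| := by linarith
        have h3 : |z| ≤ 2 := le_of_mul_le_mul_right h2 hpos
        exact abs_le.1 h3
      intro i
      fin_cases i
      · exact fin e0 (h s hs1).1 (h s0 hs0).1
      · exact fin e1 (h s hs1).2.1 (h s0 hs0).2.1
      · exact fin e2 (h s hs1).2.2 (h s0 hs0).2.2
    choose! c hc1 hc2 using hx
    calc (S.filter (fun s => (Submodule.Quotient.mk s : (Fin 3 → ℤ) ⧸ N) =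
          Submodule.Quotient.mk s0)).card
        ≤ (Fintype.piFinset (fun _ : Fin 3 => Finset.Icc (-2 : ℤ) 2)).card := by
          apply Finset.card_le_card_of_injOn c
          · intro s hs
            simp only [Finset.mem_coe, Fintype.mem_piFinset, Finset.mem_Icc]
            exact hc1 s hs
          · intro s hs t ht hst
            rw [hc2 s hs, hc2 t ht, hst]
      _ = 125 := by
          rw [Fintype.card_piFinset]
          simp
  have h1 := Finset.card_le_mul_card_image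
    (f := fun s => (Submodule.Quotient.mk s : (Fin 3 → ℤ) ⧸ N)) S 125 hfib
  have h2 : S.card ≤ 125 * (dt u v w).natAbs := h1.trans (Nat.mul_le_mul_left _ hc2)
  have h3 : ((dt u v w).natAbs : ℤ) = |dt u v w| := Int.natCast_natAbs _
  rw [← h3]
  exact_mod_cast h2

/-- pigeonhole in the unit square -/
lemma pigeon {S : Finset (Fin 3 → ℤ)} {M : ℕ} (hM : 0 < M) (t₁ t₂ : (Fin 3 → ℤ) → ℝ)
    (h1 : ∀ s ∈ S, |t₁ s| ≤ 1) (h2 : ∀ s ∈ S, |t₂ s| ≤ 1) (hS : (2 * M + 1) ^ 2 < S.card) :
    ∃ s ∈ S, ∃ s' ∈ S, s ≠ s' ∧ |t₁ s - t₁ s'| ≤ 1 / M ∧ |t₂ s - t₂ s'| ≤ 1 / M := by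
  have hM' : (0 : ℝ) < M := by exact_mod_cast hM
  have hmem : ∀ x : ℝ, |x| ≤ 1 → ⌊(M : ℝ) * x⌋ ∈ Finset.Icc (-(M : ℤ)) M := by
    intro x hx
    obtain ⟨ha, hb⟩ := abs_le.1 hx
    rw [Finset.mem_Icc]
    constructor
    · rw [Int.le_floor]
      push_cast
      nlinarith
    · have : ((⌊(M : ℝ) * x⌋ : ℤ) : ℝ) ≤ M := (Int.floor_le _).trans (by nlinarith)
      exact_mod_cast this
  have hcard : ((Finset.Icc (-(M : ℤ)) M) ×ˢ (Finset.Icc (-(M : ℤ)) M)).card < S.card := by
    rw [Finset.card_product, Int.card_Icc]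
    have : ((M : ℤ) + 1 - -(M : ℤ)).toNat = 2 * M + 1 := by
      have : (M : ℤ) + 1 - -(M : ℤ) = ((2 * M + 1 : ℕ) : ℤ) := by push_cast; ring
      rw [this, Int.toNat_natCast]
    rw [this, ← pow_two]
    exact hS
  obtain ⟨s, hs, s', hs', hne, heq⟩ := Finset.exists_ne_map_eq_of_card_lt_of_maps_to hcard
    (f := fun s => (⌊(M : ℝ) * t₁ s⌋, ⌊(M : ℝ) * t₂ s⌋)) (by
      intro s hs
      exact Finset.mem_coe.2 (Finset.mem_product.2 ⟨hmem _ (h1 s hs), hmem _ (h2 s hs)⟩))
  have hfl : ∀ x y : ℝ, ⌊(M : ℝ) * x⌋ = ⌊(M : ℝ) * y⌋ → |x - y| ≤ 1 / M := by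
    intro x y h
    have := Int.abs_sub_lt_one_of_floor_eq_floor h
    rw [← mul_sub, abs_mul, abs_of_pos hM'] at this
    rw [le_div_iff₀ hM', mul_comm]
    exact this.le
  obtain ⟨e1, e2⟩ := Prod.mk.inj heq
  exact ⟨s, hs, s', hs', hne, hfl _ _ e1, hfl _ _ e2⟩

/-- Number of integer points in a box. -/
theorem lattice_count (α x X Y Z : ℝ) (M : ℕ) (hM : 0 < M)
    (hmin : ∀ v : Fin 3 → ℤ, v ≠ 0 → |(v 0 : ℝ)| ≤ 2 / M * X → |v 0 * α - v 1| ≤ 2 / M * Y →
      |v 0 * x - v 2| ≤ 2 / M * Z → False)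
    (S : Finset (Fin 3 → ℤ))
    (hS : ∀ v ∈ S, |(v 0 : ℝ)| ≤ X ∧ |v 0 * α - v 1| ≤ Y ∧ |v 0 * x - v 2| ≤ Z) :
    (S.card : ℝ) ≤ max (750 * (X * Y * Z)) ((2 * M + 1) ^ 2) := by
  classical
  have hM' : (0 : ℝ) < M := by exact_mod_cast hM
  by_cases h3 : ∃ u ∈ S, ∃ v ∈ S, ∃ w ∈ S, dt u v w ≠ 0
  · -- rank three
    refine le_max_of_le_left ?_
    obtain ⟨u, hu, v, hv, w, hw, hD⟩ := h3
    obtain ⟨⟨a, b, c⟩, habc, hmax⟩ := Finset.exists_max_image (S ×ˢ S ×ˢ S)
      (fun p => |dt p.1 p.2.1 p.2.2|) ⟨(u, v, w), by simp [hu, hv, hw]⟩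
    simp only [Finset.mem_product] at habc hmax
    obtain ⟨ha, hb, hc⟩ := habc
    have hD' : dt a b c ≠ 0 := by
      intro h0
      have := hmax (u, v, w) ⟨hu, hv, hw⟩
      simp only [h0, abs_zero] at this
      exact hD (abs_nonpos_iff.1 this)
    have h1 := card_rank3 S a b c hD' (fun s hs => ⟨hmax (s, b, c) ⟨hs, hb, hc⟩,
      hmax (a, s, c) ⟨ha, hs, hc⟩, hmax (a, b, s) ⟨ha, hb, hs⟩⟩)
    have h2 : (|dt a b c| : ℝ) ≤ 6 * (X * Y * Z) := by
      have e : ((dt a b c : ℤ) : ℝ) =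
        (a 0 : ℝ) * ((b 0 * α - b 1) * (c 0 * x - c 2) - (b 0 * x - b 2) * (c 0 * α - c 1)) -
        (a 0 * α - a 1) * (b 0 * (c 0 * x - c 2) - (b 0 * x - b 2) * c 0) +
        (a 0 * x - a 2) * (b 0 * (c 0 * α - c 1) - (b 0 * α - b 1) * c 0) := by
        unfold dt
        push_cast
        ring
      rw [e]
      exact abs_det_le (hS a ha).1 (hS a ha).2.1 (hS a ha).2.2 (hS b hb).1 (hS b hb).2.1
        (hS b hb).2.2 (hS c hc).1 (hS c hc).2.1 (hS c hc).2.2
    have h4 : (S.card : ℝ) ≤ 125 * |((dt a b c : ℤ) : ℝ)| := by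
      have : ((S.card : ℤ) : ℝ) ≤ ((125 * |dt a b c| : ℤ) : ℝ) := by exact_mod_cast h1
      push_cast at this
      exact this
    linarith
  · push Not at h3
    refine le_max_of_le_right ?_
    by_contra hlt
    push Not at hlt
    have hlt' : (2 * M + 1) ^ 2 < S.card := by exact_mod_cast hlt
    by_cases h2 : ∃ k, ∃ u ∈ S, ∃ v ∈ S, cr k u v ≠ 0
    · obtain ⟨k0, u0, hu0, v0, hv0, hc0⟩ := h2
      obtain ⟨⟨k, u, v⟩, huv, hmax⟩ := Finset.exists_max_image
        ((Finset.univ : Finset (Fin 3)) ×ˢ S ×ˢ S) (fun p => |cr p.1 p.2.1 p.2.2|)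
        ⟨(k0, u0, v0), by simp [hu0, hv0]⟩
      simp only [Finset.mem_product, Finset.mem_univ, true_and] at huv hmax
      obtain ⟨hu, hv⟩ := huv
      have hc : cr k u v ≠ 0 := by
        intro h0
        have := hmax (k0, u0, v0) ⟨hu0, hv0⟩
        simp only [h0, abs_zero] at this
        exact hc0 (abs_nonpos_iff.1 this)
      have hcR : ((cr k u v : ℤ) : ℝ) ≠ 0 := by exact_mod_cast hc
      have hid : ∀ s ∈ S, ∀ i, (cr k u v : ℝ) * s i = cr k s v * u i + cr k u s * v i := by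
        intro s hs i
        have h0 := h3 u hu v hv s hs
        have : cr k u v * s i = cr k s v * u i + cr k u s * v i := by
          unfold dt at h0
          fin_cases k <;> fin_cases i <;> simp [cr] <;> linarith
        exact_mod_cast this
      obtain ⟨s, hs, s', hs', hne, d1, d2⟩ := pigeon (S := S) hM
        (fun s => (cr k s v : ℝ) / cr k u v) (fun s => (cr k u s : ℝ) / cr k u v)
        (fun s hs => by
          rw [abs_div, div_le_one (abs_pos.2 hcR)]
          have := hmax (k, s, v) ⟨hs, hv⟩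
          exact_mod_cast this)
        (fun s hs => by
          rw [abs_div, div_le_one (abs_pos.2 hcR)]
          have := hmax (k, u, s) ⟨hu, hs⟩
          exact_mod_cast this) hlt'
      set a := (cr k s v : ℝ) / cr k u v - (cr k s' v : ℝ) / cr k u v with ha
      set b := (cr k u s : ℝ) / cr k u v - (cr k u s' : ℝ) / cr k u v with hb
      have hw : ∀ i, ((s i - s' i : ℤ) : ℝ) = a * u i + b * v i := by
        intro i
        push_cast
        have e1 := hid s hs i
        have e2 := hid s' hs' i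
        rw [ha, hb]
        field_simp
        linear_combination e1 - e2
      have comb : ∀ {p r P : ℝ}, |p| ≤ P → |r| ≤ P → |a * p + b * r| ≤ 2 / M * P := by
        intro p r P hp hr
        have hP : 0 ≤ P := (abs_nonneg _).trans hp
        calc |a * p + b * r| ≤ |a * p| + |b * r| := abs_add_le _ _
          _ = |a| * |p| + |b| * |r| := by rw [abs_mul, abs_mul]
          _ ≤ 1 / M * P + 1 / M * P := by gcongr
          _ = 2 / M * P := by ring
      refine hmin (s - s') (sub_ne_zero.2 hne) ?_ ?_ ?_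
      · have : (((s - s') 0 : ℤ) : ℝ) = a * u 0 + b * v 0 := hw 0
        rw [this]
        exact comb (hS u hu).1 (hS v hv).1
      · have : (((s - s') 0 : ℤ) : ℝ) * α - (((s - s') 1 : ℤ) : ℝ) =
            a * (u 0 * α - u 1) + b * (v 0 * α - v 1) := by
          have e0 : (((s - s') 0 : ℤ) : ℝ) = a * u 0 + b * v 0 := hw 0
          have e1 : (((s - s') 1 : ℤ) : ℝ) = a * u 1 + b * v 1 := hw 1
          rw [e0, e1]
          ring
        rw [this]
        exact comb (hS u hu).2.1 (hS v hv).2.1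
      · have : (((s - s') 0 : ℤ) : ℝ) * x - (((s - s') 2 : ℤ) : ℝ) =
            a * (u 0 * x - u 2) + b * (v 0 * x - v 2) := by
          have e0 : (((s - s') 0 : ℤ) : ℝ) = a * u 0 + b * v 0 := hw 0
          have e1 : (((s - s') 2 : ℤ) : ℝ) = a * u 2 + b * v 2 := hw 2
          rw [e0, e1]
          ring
        rw [this]
        exact comb (hS u hu).2.2 (hS v hv).2.2
    · push Not at h2
      -- rank at most one
      have hex : ∃ u ∈ S, ∃ k, u k ≠ 0 := by
        by_contra hall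
        push Not at hall
        have hsub : S ⊆ {0} := by
          intro u hu
          rw [Finset.mem_singleton]
          ext k
          exact hall u hu k
        have h5 := Finset.card_le_card hsub
        rw [Finset.card_singleton] at h5
        have : 1 ≤ (2 * M + 1) ^ 2 := Nat.one_le_pow _ _ (by omega)
        omega
      obtain ⟨u0, hu0, k0, hk0⟩ := hex
      obtain ⟨⟨k, u⟩, hku, hmax⟩ := Finset.exists_max_image
        ((Finset.univ : Finset (Fin 3)) ×ˢ S) (fun p => |p.2 p.1|) ⟨(k0, u0), by simp [hu0]⟩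
      simp only [Finset.mem_product, Finset.mem_univ, true_and] at hku hmax
      have hk : u k ≠ 0 := by
        intro h0
        have := hmax (k0, u0) hu0
        simp only [h0, abs_zero] at this
        exact hk0 (abs_nonpos_iff.1 this)
      have hkR : ((u k : ℤ) : ℝ) ≠ 0 := by exact_mod_cast hk
      have hid : ∀ s ∈ S, ∀ i, (u k : ℝ) * s i = s k * u i := by
        intro s hs i
        have c0 := h2 0 u hku s hs
        have c1 := h2 1 u hku s hs
        have c2 := h2 2 u hku s hs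
        simp only [cr, Matrix.cons_val_zero, Matrix.cons_val_one, Matrix.cons_val] at c0 c1 c2
        have : u k * s i = s k * u i := by
          fin_cases k <;> fin_cases i <;> simp <;> linarith
        exact_mod_cast this
      obtain ⟨s, hs, s', hs', hne, d1, -⟩ := pigeon (S := S) hM
        (fun s => (s k : ℝ) / u k) (fun _ => 0)
        (fun s hs => by
          rw [abs_div, div_le_one (abs_pos.2 hkR)]
          have := hmax (k, s) hs
          exact_mod_cast this)
        (fun s hs => by simp) hlt'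
      set a := (s k : ℝ) / u k - (s' k : ℝ) / u k with ha
      have hw : ∀ i, ((s i - s' i : ℤ) : ℝ) = a * u i := by
        intro i
        push_cast
        have e1 := hid s hs i
        have e2 := hid s' hs' i
        rw [ha]
        field_simp
        linear_combination e1 - e2
      have comb : ∀ {p P : ℝ}, |p| ≤ P → |a * p| ≤ 2 / M * P := by
        intro p P hp
        have hP : 0 ≤ P := (abs_nonneg _).trans hp
        calc |a * p| = |a| * |p| := abs_mul _ _
          _ ≤ 1 / M * P := by gcongr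
          _ ≤ 2 / M * P := by gcongr; norm_num
      refine hmin (s - s') (sub_ne_zero.2 hne) ?_ ?_ ?_
      · have : (((s - s') 0 : ℤ) : ℝ) = a * u 0 := hw 0
        rw [this]
        exact comb (hS u hku).1
      · have : (((s - s') 0 : ℤ) : ℝ) * α - (((s - s') 1 : ℤ) : ℝ) = a * (u 0 * α - u 1) := by
          have e0 : (((s - s') 0 : ℤ) : ℝ) = a * u 0 := hw 0
          have e1 : (((s - s') 1 : ℤ) : ℝ) = a * u 1 := hw 1
          rw [e0, e1]
          ring
        rw [this]
        exact comb (hS u hku).2.1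
      · have : (((s - s') 0 : ℤ) : ℝ) * x - (((s - s') 2 : ℤ) : ℝ) = a * (u 0 * x - u 2) := by
          have e0 : (((s - s') 0 : ℤ) : ℝ) = a * u 0 := hw 0
          have e1 : (((s - s') 2 : ℤ) : ℝ) = a * u 2 := hw 2
          rw [e0, e1]
          ring
        rw [this]
        exact comb (hS u hku).2.2

end Pool.Agent.KS6_31.DB
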