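import Mathlib
import Pool.Agent.KS6_31.DB.Lattice

set_option autoImplicit false

/-! Shapes of the denominators and the number of centers near a surviving interval. -/

open Set Filter

namespace Pool.Agent.KS6_31.DB

/-- Distance to the nearest integer. -/
noncomputable def nm (x : ℝ) : ℝ := |x - round x|

/-- `2 ^ sj ≤ 2 ^ k₀ q ‖q α‖ < 2 ^ (sj + 1)`. -/
noncomputable def sj (α : ℝ) (k₀ q : ℕ) : ℕ := Nat.log 2 ⌊(2 : ℝ) ^ k₀ * (q * nm (q * α))⌋₊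

/-- The distance of the shape `(l, j)` to the walls. -/
def sa (k₀ l j : ℕ) : ℕ := min j (l + k₀ - j)

/-- The level of a denominator. -/
noncomputable def lev (α : ℝ) (k₀ : ℕ) (h : ℕ → ℕ) (q : ℕ) : ℕ :=
  Nat.log 2 q + sj α k₀ q + h (sa k₀ (Nat.log 2 q) (sj α k₀ q))

variable {α : ℝ} {k₀ : ℕ} {h : ℕ → ℕ}

lemma nm_nonneg (x : ℝ) : 0 ≤ nm x := abs_nonneg _

lemma nm_le_half (x : ℝ) : nm x ≤ 1 / 2 := abs_sub_round x

lemma nm_le (x : ℝ) (z : ℤ) : nm x ≤ |x - z| := round_le x z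

/-- `α` is badly approximable with the constant `2 ^ (-k₀)`. -/
def Bad (α : ℝ) (k₀ : ℕ) : Prop := ∀ q : ℕ, 1 ≤ q → 1 ≤ (2 : ℝ) ^ k₀ * (q * nm (q * α))

lemma sj_spec (hb : Bad α k₀) {q : ℕ} (hq : 1 ≤ q) :
    (2 : ℝ) ^ sj α k₀ q ≤ (2 : ℝ) ^ k₀ * (q * nm (q * α)) ∧
      (2 : ℝ) ^ k₀ * (q * nm (q * α)) < (2 : ℝ) ^ (sj α k₀ q + 1) := by
  set x := (2 : ℝ) ^ k₀ * (q * nm (q * α)) with hx
  have h1 := hb q hq
  have hx0 : 0 ≤ x := by linarith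
  have h2 : 1 ≤ ⌊x⌋₊ := Nat.le_floor (by rw [Nat.cast_one]; exact h1)
  have h3 : ⌊x⌋₊ ≠ 0 := by omega
  constructor
  · calc (2 : ℝ) ^ sj α k₀ q ≤ (⌊x⌋₊ : ℝ) := by
          have := Nat.pow_log_le_self 2 h3
          exact_mod_cast this
      _ ≤ x := Nat.floor_le hx0
  · calc x < (⌊x⌋₊ : ℝ) + 1 := Nat.lt_floor_add_one x
      _ ≤ (2 : ℝ) ^ (sj α k₀ q + 1) := by
          have : ⌊x⌋₊ + 1 ≤ 2 ^ (sj α k₀ q + 1) := Nat.lt_pow_succ_log_self (by norm_num) _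
          exact_mod_cast this

lemma sl_spec {q : ℕ} (hq : 1 ≤ q) : (2 : ℝ) ^ Nat.log 2 q ≤ q ∧ (q : ℝ) < (2 : ℝ) ^ (Nat.log 2 q + 1) := by
  constructor
  · exact_mod_cast Nat.pow_log_le_self 2 (by omega)
  · exact_mod_cast Nat.lt_pow_succ_log_self (by norm_num) q

lemma pow_le_pow_iff2 {a b : ℕ} : (2 : ℝ) ^ a ≤ (2 : ℝ) ^ b ↔ a ≤ b :=
  pow_le_pow_iff_right₀ (by norm_num)

lemma pow_lt_pow_iff2 {a b : ℕ} : (2 : ℝ) ^ a < (2 : ℝ) ^ b ↔ a < b :=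
  pow_lt_pow_iff_right₀ (by norm_num)

lemma sj_lt (hb : Bad α k₀) {q : ℕ} (hq : 1 ≤ q) : sj α k₀ q < Nat.log 2 q + k₀ := by
  obtain ⟨h1, -⟩ := sj_spec hb hq
  obtain ⟨-, h2⟩ := sl_spec hq
  have h3 := nm_le_half (q * α)
  have h0 := nm_nonneg (q * α)
  have : (2 : ℝ) ^ sj α k₀ q < (2 : ℝ) ^ (Nat.log 2 q + k₀) := by
    calc (2 : ℝ) ^ sj α k₀ q ≤ (2 : ℝ) ^ k₀ * (q * nm (q * α)) := h1
      _ ≤ (2 : ℝ) ^ k₀ * (q * (1 / 2)) := by gcongr
      _ < (2 : ℝ) ^ k₀ * ((2 : ℝ) ^ (Nat.log 2 q + 1) * (1 / 2)) := by gcongr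
      _ = (2 : ℝ) ^ (Nat.log 2 q + k₀) := by rw [pow_add, pow_add]; ring
  exact pow_lt_pow_iff2.1 this

lemma nm_lt (hb : Bad α k₀) {q : ℕ} (hq : 1 ≤ q) :
    nm (q * α) < (2 : ℝ) ^ (sj α k₀ q + 1) / ((2 : ℝ) ^ k₀ * (2 : ℝ) ^ Nat.log 2 q) := by
  obtain ⟨-, h1⟩ := sj_spec hb hq
  obtain ⟨h2, -⟩ := sl_spec hq
  rw [lt_div_iff₀ (by positivity)]
  have h0 := nm_nonneg (q * α)
  calc nm (q * α) * ((2 : ℝ) ^ k₀ * (2 : ℝ) ^ Nat.log 2 q) ≤ nm (q * α) * ((2 : ℝ) ^ k₀ * q) := by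
        gcongr
    _ = (2 : ℝ) ^ k₀ * (q * nm (q * α)) := by ring
    _ < _ := h1

/-- Number of the denominators of a given shape. -/
lemma card_shape (hb : Bad α k₀) (l j : ℕ) (Q : Finset ℕ)
    (hQ : ∀ q ∈ Q, 1 ≤ q ∧ Nat.log 2 q = l ∧ sj α k₀ q = j) : Q.card ≤ 2 ^ (j + 3) := by
  rcases Nat.lt_or_ge l (j + 2) with hlj | hlj
  · have hsub : Q ⊆ Finset.range (2 ^ (l + 1)) := by
      intro q hq
      obtain ⟨h1, h2, -⟩ := hQ q hq
      rw [Finset.mem_range, ← h2]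
      exact Nat.lt_pow_succ_log_self (by norm_num) q
    calc Q.card ≤ (Finset.range (2 ^ (l + 1))).card := Finset.card_le_card hsub
      _ = 2 ^ (l + 1) := Finset.card_range _
      _ ≤ 2 ^ (j + 3) := Nat.pow_le_pow_right (by norm_num) (by omega)
  · -- spacing
    have key : ∀ q₁ ∈ Q, ∀ q₂ ∈ Q, q₁ < q₂ → 2 ^ (l - j - 2) < q₂ - q₁ := by
      intro q₁ h₁ q₂ h₂ hlt
      obtain ⟨a1, a2, a3⟩ := hQ q₁ h₁
      obtain ⟨b1, b2, b3⟩ := hQ q₂ h₂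
      have n1 := nm_lt hb a1
      have n2 := nm_lt hb b1
      rw [a2, a3] at n1
      rw [b2, b3] at n2
      have hd : 1 ≤ q₂ - q₁ := by omega
      have h3 := hb (q₂ - q₁) hd
      have h4 : nm (((q₂ - q₁ : ℕ) : ℝ) * α) ≤ nm (q₁ * α) + nm (q₂ * α) := by
        have := nm_le (((q₂ - q₁ : ℕ) : ℝ) * α) (round (q₂ * α) - round (q₁ * α))
        refine this.trans ?_
        rw [Nat.cast_sub hlt.le]
        unfold nm
        push_cast
        have e : ((q₂ : ℝ) - q₁) * α - ((round ((q₂ : ℝ) * α) : ℝ) - round ((q₁ : ℝ) * α)) =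
          ((q₂ : ℝ) * α - round ((q₂ : ℝ) * α)) - ((q₁ : ℝ) * α - round ((q₁ : ℝ) * α)) := by ring
        rw [e]
        calc _ ≤ |(q₂ : ℝ) * α - round ((q₂ : ℝ) * α)| + |(q₁ : ℝ) * α - round ((q₁ : ℝ) * α)| :=
              abs_sub _ _
          _ = _ := by ring
      have h5 : nm (((q₂ - q₁ : ℕ) : ℝ) * α) < 2 * ((2 : ℝ) ^ (j + 1) / ((2 : ℝ) ^ k₀ * (2 : ℝ) ^ l)) := by
        linarith
      have hdpos : (0 : ℝ) < ((q₂ - q₁ : ℕ) : ℝ) := by exact_mod_cast hd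
      have h6 : (1 : ℝ) < (2 : ℝ) ^ k₀ * (((q₂ - q₁ : ℕ) : ℝ) *
          (2 * ((2 : ℝ) ^ (j + 1) / ((2 : ℝ) ^ k₀ * (2 : ℝ) ^ l)))) := by
        refine h3.trans_lt ?_
        gcongr
      have h7 : (2 : ℝ) ^ k₀ * (((q₂ - q₁ : ℕ) : ℝ) *
          (2 * ((2 : ℝ) ^ (j + 1) / ((2 : ℝ) ^ k₀ * (2 : ℝ) ^ l)))) =
          ((q₂ - q₁ : ℕ) : ℝ) * (2 : ℝ) ^ (j + 2) / (2 : ℝ) ^ l := by
        field_simp
        ring
      rw [h7, lt_div_iff₀ (by positivity), one_mul] at h6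
      have h8 : (2 : ℝ) ^ l = (2 : ℝ) ^ (l - j - 2) * (2 : ℝ) ^ (j + 2) := by
        rw [← pow_add]
        congr 1
        omega
      rw [h8] at h6
      have h9 := lt_of_mul_lt_mul_right h6 (by positivity)
      exact_mod_cast h9
    have hinj : Set.InjOn (fun q => q / 2 ^ (l - j - 2)) (Q : Set ℕ) := by
      intro q₁ h₁ q₂ h₂ he
      simp only at he
      by_contra hne
      have hp : 0 < 2 ^ (l - j - 2) := by positivity
      rcases Nat.lt_or_gt_of_ne hne with hlt | hlt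
      · have k1 := key q₁ h₁ q₂ h₂ hlt
        have k2 : q₁ / 2 ^ (l - j - 2) + 1 ≤ q₂ / 2 ^ (l - j - 2) := by
          rw [Nat.le_div_iff_mul_le hp, add_mul, one_mul]
          have := Nat.div_mul_le_self q₁ (2 ^ (l - j - 2))
          omega
        omega
      · have k1 := key q₂ h₂ q₁ h₁ hlt
        have k2 : q₂ / 2 ^ (l - j - 2) + 1 ≤ q₁ / 2 ^ (l - j - 2) := by
          rw [Nat.le_div_iff_mul_le hp, add_mul, one_mul]
          have := Nat.div_mul_le_self q₂ (2 ^ (l - j - 2))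
          omega
        omega
    calc Q.card = (Q.image (fun q => q / 2 ^ (l - j - 2))).card :=
          (Finset.card_image_of_injOn hinj).symm
      _ ≤ (Finset.range (2 ^ (j + 3))).card := by
          apply Finset.card_le_card
          intro x hx
          obtain ⟨q, hq, rfl⟩ := Finset.mem_image.1 hx
          obtain ⟨h1, h2, -⟩ := hQ q hq
          rw [Finset.mem_range, Nat.div_lt_iff_lt_mul (by positivity), ← pow_add]
          have : q < 2 ^ (l + 1) := by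
            rw [← h2]
            exact Nat.lt_pow_succ_log_self (by norm_num) q
          have e : j + 3 + (l - j - 2) = l + 1 := by omega
          rw [e]
          exact this
      _ = _ := Finset.card_range _

/-- The centers of the shape `(l, j)` near `x₀`. -/
noncomputable def Cen (α : ℝ) (k₀ l j m : ℕ) (x₀ : ℝ) : Finset (ℕ × ℤ) :=
  open Classical in
  ((Finset.range (2 ^ (l + 1))) ×ˢ (Finset.Icc (-(2 : ℤ) ^ (l + 3)) ((2 : ℤ) ^ (l + 3)))).filter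
    (fun p => 1 ≤ p.1 ∧ Nat.log 2 p.1 = l ∧ sj α k₀ p.1 = j ∧ |(p.2 : ℝ) / p.1 - x₀| ≤ 2 / 2 ^ m)

lemma mem_Cen {l j m : ℕ} {x₀ : ℝ} {p : ℕ × ℤ} (hp : p ∈ Cen α k₀ l j m x₀) :
    1 ≤ p.1 ∧ Nat.log 2 p.1 = l ∧ sj α k₀ p.1 = j ∧ |(p.2 : ℝ) / p.1 - x₀| ≤ 2 / 2 ^ m := by
  classical
  exact (Finset.mem_filter.1 hp).2

lemma Cen_dist {l j m : ℕ} {x₀ : ℝ} {p : ℕ × ℤ} (hp : p ∈ Cen α k₀ l j m x₀) :
    |(p.1 : ℝ) * x₀ - p.2| ≤ (2 : ℝ) ^ (l + 2) / 2 ^ m := by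
  obtain ⟨h1, h2, -, h4⟩ := mem_Cen hp
  have hq : (0 : ℝ) < p.1 := by exact_mod_cast h1
  have hlt := (sl_spec h1).2
  rw [h2] at hlt
  have e : (p.1 : ℝ) * x₀ - p.2 = -(p.1 * ((p.2 : ℝ) / p.1 - x₀)) := by
    field_simp
    ring
  rw [e, abs_neg, abs_mul, abs_of_pos hq]
  calc (p.1 : ℝ) * |(p.2 : ℝ) / p.1 - x₀| ≤ (2 : ℝ) ^ (l + 1) * (2 / 2 ^ m) := by gcongr
    _ = _ := by rw [pow_succ (2 : ℝ) (l + 1)]; ring

/-- The trivial bound. -/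
lemma card_Cen_le (hb : Bad α k₀) {l j m : ℕ} (hm : m ≤ l) (x₀ : ℝ) :
    (Cen α k₀ l j m x₀).card ≤ 2 ^ (l + j - m + 7) := by
  classical
  -- fibers over the denominators
  have hfib : ∀ a ∈ (Cen α k₀ l j m x₀).image Prod.fst,
      ((Cen α k₀ l j m x₀).filter (fun p => p.1 = a)).card ≤ 2 ^ (l - m + 4) := by
    intro q _
    have hsub : ((Cen α k₀ l j m x₀).filter (fun p => p.1 = q)).card ≤
        (Finset.Icc (⌊(q : ℝ) * x₀⌋ - 2 ^ (l + 2 - m)) (⌊(q : ℝ) * x₀⌋ + 1 + 2 ^ (l + 2 - m))).card := by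
      apply Finset.card_le_card_of_injOn Prod.snd
      · intro p hp
        obtain ⟨hp1, hp2⟩ := Finset.mem_filter.1 hp
        have h1 := Cen_dist hp1
        rw [hp2] at h1
        have e : (2 : ℝ) ^ (l + 2) / 2 ^ m = 2 ^ (l + 2 - m) := by
          rw [div_eq_iff (by positivity), ← pow_add]
          congr 1
          omega
        rw [e] at h1
        obtain ⟨ha, hb'⟩ := abs_le.1 h1
        rw [Finset.mem_coe, Finset.mem_Icc]
        have hf1 := Int.floor_le ((q : ℝ) * x₀)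
        have hf2 := Int.lt_floor_add_one ((q : ℝ) * x₀)
        constructor
        · have : ((⌊(q : ℝ) * x₀⌋ - 2 ^ (l + 2 - m) : ℤ) : ℝ) ≤ p.2 := by
            push_cast
            linarith
          exact_mod_cast this
        · have : (p.2 : ℝ) ≤ ((⌊(q : ℝ) * x₀⌋ + 1 + 2 ^ (l + 2 - m) : ℤ) : ℝ) := by
            push_cast
            linarith
          exact_mod_cast this
      · intro p hp p' hp' he
        obtain ⟨-, hp2⟩ := Finset.mem_filter.1 hp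
        obtain ⟨-, hp2'⟩ := Finset.mem_filter.1 hp'
        exact Prod.ext (hp2.trans hp2'.symm) he
    refine hsub.trans ?_
    rw [Int.card_Icc]
    have e : (⌊(q : ℝ) * x₀⌋ + 1 + 2 ^ (l + 2 - m) + 1 - (⌊(q : ℝ) * x₀⌋ - 2 ^ (l + 2 - m))) =
        ((2 * 2 ^ (l + 2 - m) + 2 : ℕ) : ℤ) := by
      push_cast
      ring
    rw [e, Int.toNat_natCast]
    have e2 : l - m + 4 = (l + 2 - m) + 2 := by omega
    rw [e2, pow_add]
    have : 1 ≤ 2 ^ (l + 2 - m) := Nat.one_le_two_pow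
    omega
  have h1 := Finset.card_le_mul_card_image (f := Prod.fst) (Cen α k₀ l j m x₀) _ hfib
  have h2 : ((Cen α k₀ l j m x₀).image Prod.fst).card ≤ 2 ^ (j + 3) := by
    apply card_shape hb l j
    intro q hq
    obtain ⟨p, hp, rfl⟩ := Finset.mem_image.1 hq
    obtain ⟨a, b, c, -⟩ := mem_Cen hp
    exact ⟨a, b, c⟩
  calc _ ≤ 2 ^ (l - m + 4) * ((Cen α k₀ l j m x₀).image Prod.fst).card := h1
    _ ≤ 2 ^ (l - m + 4) * 2 ^ (j + 3) := by gcongr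
    _ = 2 ^ (l + j - m + 7) := by
        rw [← pow_add]
        congr 1
        omega

end Pool.Agent.KS6_31.DB
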