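import Mathlib
import Pool.Agent.KS6_31.DB.Shape

set_option autoImplicit false

/-! The number of centers near a surviving interval. -/

open Set Filter

namespace Pool.Agent.KS6_31.DB

variable {α : ℝ} {k₀ : ℕ} {h : ℕ → ℕ}

/-- Slow growth of `h`. -/
def Slow (h : ℕ → ℕ) : Prop := ∀ a a', a' ≤ a + 5 * h a + h a' + 2 → h a' ≤ h a + 5

lemma div_pow_le {a b c d : ℕ} (H : (2 : ℝ) ^ a / (2 : ℝ) ^ b ≤ (2 : ℝ) ^ c / (2 : ℝ) ^ d) :
    a + d ≤ c + b := by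
  rw [div_le_div_iff₀ (by positivity) (by positivity), ← pow_add, ← pow_add] at H
  exact pow_le_pow_iff2.1 H

lemma no_small_aux (hb : Bad α k₀) (hH : Slow h) {l j m : ℕ} (hjl : j < l + k₀)
    (hm : m + 5 * h (sa k₀ l j) = l + j) (hlm : l < m) (x₀ : ℝ)
    (hx : ∀ q : ℕ, 1 ≤ q → lev α k₀ h q ≤ m → ∀ r : ℤ, 1 / (2 : ℝ) ^ lev α k₀ h q ≤ |x₀ - r / q|)
    (e : ℕ) (he : e = 2 * h (sa k₀ l j) + 4) (v : Fin 3 → ℤ) (hv : v ≠ 0) (hv0 : 0 ≤ v 0)
    (h1 : |(v 0 : ℝ)| ≤ 1 / (2 : ℝ) ^ e * (2 : ℝ) ^ (l + 1))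
    (h2 : |v 0 * α - v 1| ≤ 1 / (2 : ℝ) ^ e * ((2 : ℝ) ^ (j + 1) / (2 : ℝ) ^ (k₀ + l)))
    (h3 : |v 0 * x₀ - v 2| ≤ 1 / (2 : ℝ) ^ e * ((2 : ℝ) ^ (l + 2) / (2 : ℝ) ^ m)) : False := by
  obtain ⟨q, hq⟩ := Int.eq_ofNat_of_zero_le hv0
  rw [hq] at h1 h2 h3
  rw [Int.cast_natCast] at h1 h2 h3
  have he4 : 4 ≤ e := by omega
  rcases Nat.eq_zero_or_pos q with hq0 | hq0
  · -- the first coordinate vanishes
    subst hq0
    apply hv
    have e1 : (1 : ℝ) / (2 : ℝ) ^ e ≤ 1 / 16 := by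
      have : (2 : ℝ) ^ 4 ≤ (2 : ℝ) ^ e := pow_le_pow_iff2.2 he4
      rw [div_le_div_iff₀ (by positivity) (by norm_num)]
      norm_num at this ⊢
      exact this
    have e0 : (0 : ℝ) < 1 / (2 : ℝ) ^ e := by positivity
    have hv1 : v 1 = 0 := by
      have hY : (2 : ℝ) ^ (j + 1) / (2 : ℝ) ^ (k₀ + l) ≤ 1 := by
        rw [div_le_one (by positivity)]
        exact pow_le_pow_iff2.2 (by omega)
      have hY0 : (0 : ℝ) ≤ (2 : ℝ) ^ (j + 1) / (2 : ℝ) ^ (k₀ + l) := by positivity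
      have : |(v 1 : ℝ)| < 1 := by
        have := h2
        simp only [Nat.cast_zero, zero_mul, zero_sub, abs_neg] at this
        nlinarith
      have h' : |v 1| < 1 := by exact_mod_cast this
      exact Int.abs_lt_one_iff.1 h'
    have hv2 : v 2 = 0 := by
      have hZ : (2 : ℝ) ^ (l + 2) / (2 : ℝ) ^ m ≤ 2 := by
        rw [div_le_iff₀ (by positivity)]
        have : (2 : ℝ) ^ (l + 1) ≤ (2 : ℝ) ^ m := pow_le_pow_iff2.2 (by omega)
        rw [pow_succ (2 : ℝ) (l + 1)]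
        linarith
      have hZ0 : (0 : ℝ) ≤ (2 : ℝ) ^ (l + 2) / (2 : ℝ) ^ m := by positivity
      have : |(v 2 : ℝ)| < 1 := by
        have := h3
        simp only [Nat.cast_zero, zero_mul, zero_sub, abs_neg] at this
        nlinarith
      have h' : |v 2| < 1 := by exact_mod_cast this
      exact Int.abs_lt_one_iff.1 h'
    ext i
    fin_cases i
    · simpa using hq
    · exact hv1
    · exact hv2
  · -- the shape of `q`
    set l' := Nat.log 2 q with hl'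
    set j' := sj α k₀ q with hj'
    obtain ⟨s1, -⟩ := sl_spec hq0
    obtain ⟨t1, -⟩ := sj_spec hb hq0
    rw [← hl'] at s1
    rw [← hj'] at t1
    have hjl' : j' < l' + k₀ := sj_lt hb hq0
    have hqR : (0 : ℝ) < q := by exact_mod_cast hq0
    have hqX : (q : ℝ) ≤ (2 : ℝ) ^ (l + 1) / (2 : ℝ) ^ e := by
      rw [abs_of_pos hqR] at h1
      calc (q : ℝ) ≤ 1 / (2 : ℝ) ^ e * (2 : ℝ) ^ (l + 1) := h1
        _ = _ := by ring
    have hnY : nm (q * α) ≤ (2 : ℝ) ^ (j + 1) / (2 : ℝ) ^ (k₀ + l + e) := by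
      calc nm (q * α) ≤ |q * α - v 1| := nm_le _ _
        _ ≤ _ := h2
        _ = _ := by rw [pow_add (2 : ℝ) (k₀ + l) e]; field_simp
    have hrZ : |(q : ℝ) * x₀ - v 2| ≤ (2 : ℝ) ^ (l + 2) / (2 : ℝ) ^ (m + e) := by
      calc _ ≤ _ := h3
        _ = _ := by rw [pow_add (2 : ℝ) m e]; field_simp
    -- (1)
    have c1 : l' + e ≤ l + 1 := by
      have : (2 : ℝ) ^ l' / (2 : ℝ) ^ 0 ≤ (2 : ℝ) ^ (l + 1) / (2 : ℝ) ^ e := by
        rw [pow_zero, div_one]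
        exact s1.trans hqX
      have := div_pow_le this
      omega
    -- (2)
    have hN : (2 : ℝ) ^ k₀ * (q * nm (q * α)) ≤ (2 : ℝ) ^ (j + 2) / (2 : ℝ) ^ (2 * e) := by
      calc (2 : ℝ) ^ k₀ * (q * nm (q * α)) ≤ (2 : ℝ) ^ k₀ * ((2 : ℝ) ^ (l + 1) / (2 : ℝ) ^ e *
            ((2 : ℝ) ^ (j + 1) / (2 : ℝ) ^ (k₀ + l + e))) := by
            have := nm_nonneg (q * α)
            gcongr
        _ = _ := by
            rw [pow_add (2 : ℝ) (k₀ + l) e, pow_add (2 : ℝ) k₀ l, two_mul, pow_add (2 : ℝ) e e,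
              pow_add (2 : ℝ) l 1, pow_add (2 : ℝ) j 1, pow_add (2 : ℝ) j 2]
            field_simp
    have c2 : j' + 2 * e ≤ j + 2 := by
      have : (2 : ℝ) ^ j' / (2 : ℝ) ^ 0 ≤ (2 : ℝ) ^ (j + 2) / (2 : ℝ) ^ (2 * e) := by
        rw [pow_zero, div_one]
        exact t1.trans hN
      have := div_pow_le this
      omega
    set n' := lev α k₀ h q with hn'
    set h' := h (sa k₀ l' j') with hh'
    have en : n' = l' + j' + h' := rfl
    have hN0 : (0 : ℝ) ≤ (2 : ℝ) ^ k₀ * (q * nm (q * α)) := by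
      have := nm_nonneg (q * α)
      positivity
    have key : 3 * e + m ≤ j + l + 4 + h' ∧ j ≤ j' + 5 * h (sa k₀ l j) + h' + 2 := by
      rcases Nat.lt_or_ge m n' with hc | hc
      · -- not yet processed
        have : (2 : ℝ) ^ (l' + j') / (2 : ℝ) ^ 0 ≤ (2 : ℝ) ^ (l + j + 3) / (2 : ℝ) ^ (3 * e) := by
          rw [pow_zero, div_one]
          calc (2 : ℝ) ^ (l' + j') = (2 : ℝ) ^ l' * (2 : ℝ) ^ j' := pow_add _ _ _
            _ ≤ ((2 : ℝ) ^ (l + 1) / (2 : ℝ) ^ e) * ((2 : ℝ) ^ (j + 2) / (2 : ℝ) ^ (2 * e)) :=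
                mul_le_mul (s1.trans hqX) (t1.trans hN) (by positivity) (by positivity)
            _ = _ := by
                rw [div_mul_div_comm, ← pow_add, ← pow_add]
                congr 2 <;> ring
        have := div_pow_le this
        constructor
        · omega
        · omega
      · have hd := hx q hq0 hc (v 2)
        rw [← hn'] at hd
        have hd2 : (q : ℝ) / (2 : ℝ) ^ n' ≤ |(q : ℝ) * x₀ - v 2| := by
          have e1 : (q : ℝ) * x₀ - v 2 = q * (x₀ - v 2 / q) := by field_simp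
          rw [e1, abs_mul, abs_of_pos hqR]
          calc (q : ℝ) / (2 : ℝ) ^ n' = q * (1 / (2 : ℝ) ^ n') := by ring
            _ ≤ _ := by gcongr
        have hd3 : (2 : ℝ) ^ l' / (2 : ℝ) ^ n' ≤ (q : ℝ) / (2 : ℝ) ^ n' := by gcongr
        have a1 := div_pow_le (hd3.trans (hd2.trans hrZ))
        have : (2 : ℝ) ^ (j' + l') / (2 : ℝ) ^ n' ≤ (2 : ℝ) ^ (j + l + 4) / (2 : ℝ) ^ (3 * e + m) := by
          calc (2 : ℝ) ^ (j' + l') / (2 : ℝ) ^ n' = (2 : ℝ) ^ j' * ((2 : ℝ) ^ l' / (2 : ℝ) ^ n') := by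
                rw [pow_add]; ring
            _ ≤ ((2 : ℝ) ^ (j + 2) / (2 : ℝ) ^ (2 * e)) * ((2 : ℝ) ^ (l + 2) / (2 : ℝ) ^ (m + e)) :=
                mul_le_mul (t1.trans hN) (hd3.trans (hd2.trans hrZ)) (by positivity) (by positivity)
            _ = _ := by
                rw [div_mul_div_comm, ← pow_add, ← pow_add]
                congr 2 <;> ring
        have a2 := div_pow_le this
        constructor
        · omega
        · omega
    obtain ⟨k1, k2⟩ := key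
    have hsa : sa k₀ l' j' ≤ sa k₀ l j + 5 * h (sa k₀ l j) + h' + 2 := by
      unfold sa at k2 hm ⊢
      omega
    have hfin := hH (sa k₀ l j) (sa k₀ l' j') hsa
    rw [← hh'] at hfin
    omega

lemma no_small (hb : Bad α k₀) (hH : Slow h) {l j m : ℕ} (hjl : j < l + k₀)
    (hm : m + 5 * h (sa k₀ l j) = l + j) (hlm : l < m) (x₀ : ℝ)
    (hx : ∀ q : ℕ, 1 ≤ q → lev α k₀ h q ≤ m → ∀ r : ℤ, 1 / (2 : ℝ) ^ lev α k₀ h q ≤ |x₀ - r / q|)
    (e : ℕ) (he : e = 2 * h (sa k₀ l j) + 4) (v : Fin 3 → ℤ) (hv : v ≠ 0)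
    (h1 : |(v 0 : ℝ)| ≤ 1 / (2 : ℝ) ^ e * (2 : ℝ) ^ (l + 1))
    (h2 : |v 0 * α - v 1| ≤ 1 / (2 : ℝ) ^ e * ((2 : ℝ) ^ (j + 1) / (2 : ℝ) ^ (k₀ + l)))
    (h3 : |v 0 * x₀ - v 2| ≤ 1 / (2 : ℝ) ^ e * ((2 : ℝ) ^ (l + 2) / (2 : ℝ) ^ m)) : False := by
  rcases le_or_gt 0 (v 0) with h0 | h0
  · exact no_small_aux hb hH hjl hm hlm x₀ hx e he v hv h0 h1 h2 h3
  · refine no_small_aux hb hH hjl hm hlm x₀ hx e he (-v) (neg_ne_zero.2 hv)
      (by simp only [Pi.neg_apply]; omega) ?_ ?_ ?_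
    · simpa using h1
    · have e1 : (((-v) 0 : ℤ) : ℝ) * α - (((-v) 1 : ℤ) : ℝ) = -(v 0 * α - v 1) := by
        simp only [Pi.neg_apply]
        push_cast
        ring
      rw [e1, abs_neg]
      exact h2
    · have e1 : (((-v) 0 : ℤ) : ℝ) * x₀ - (((-v) 2 : ℤ) : ℝ) = -(v 0 * x₀ - v 2) := by
        simp only [Pi.neg_apply]
        push_cast
        ring
      rw [e1, abs_neg]
      exact h3

/-- The number of centers of the shape `(l, j)` near a surviving interval. -/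
theorem card_Cen (hb : Bad α k₀) (hH : Slow h) {l j m : ℕ} (hjl : j < l + k₀)
    (hm : m = l + j - 5 * h (sa k₀ l j)) (x₀ : ℝ)
    (hx : ∀ q : ℕ, 1 ≤ q → lev α k₀ h q ≤ m → ∀ r : ℤ, 1 / (2 : ℝ) ^ lev α k₀ h q ≤ |x₀ - r / q|) :
    (Cen α k₀ l j m x₀).card ≤ 2 ^ (l + j - m + 14) := by
  classical
  rcases Nat.lt_or_ge l m with hlm | hlm
  swap
  · exact (card_Cen_le hb hlm x₀).trans (Nat.pow_le_pow_right (by norm_num) (by omega))
  have hm' : m + 5 * h (sa k₀ l j) = l + j := by omega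
  set H := h (sa k₀ l j) with hHdef
  set e := 2 * H + 4 with he
  set X : ℝ := (2 : ℝ) ^ (l + 1) with hX
  set Y : ℝ := (2 : ℝ) ^ (j + 1) / (2 : ℝ) ^ (k₀ + l) with hY
  set Z : ℝ := (2 : ℝ) ^ (l + 2) / (2 : ℝ) ^ m with hZ
  set f : ℕ × ℤ → (Fin 3 → ℤ) := fun p => ![(p.1 : ℤ), round ((p.1 : ℝ) * α), p.2] with hf
  have hinj : Set.InjOn f (Cen α k₀ l j m x₀ : Set (ℕ × ℤ)) := by
    intro p _ p' _ hpp
    have a0 := congrFun hpp 0
    have a2 := congrFun hpp 2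
    simp only [hf, Matrix.cons_val_zero, Matrix.cons_val] at a0 a2
    exact Prod.ext (by exact_mod_cast a0) a2
  have hcard : ((Cen α k₀ l j m x₀).image f).card = (Cen α k₀ l j m x₀).card :=
    Finset.card_image_of_injOn hinj
  have hM : (2 : ℝ) / ((2 ^ (e + 1) : ℕ) : ℝ) = 1 / (2 : ℝ) ^ e := by
    push_cast
    rw [pow_succ]
    field_simp
  have hlc := lattice_count α x₀ X Y Z (2 ^ (e + 1)) (by positivity)
    (by
      intro v hv b1 b2 b3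
      rw [hM] at b1 b2 b3
      exact no_small hb hH hjl hm' hlm x₀ hx e he v hv b1 b2 b3)
    ((Cen α k₀ l j m x₀).image f)
    (by
      intro v hv
      obtain ⟨p, hp, rfl⟩ := Finset.mem_image.1 hv
      obtain ⟨p1, p2, p3, -⟩ := mem_Cen hp
      have hq : (0 : ℝ) < p.1 := by exact_mod_cast p1
      refine ⟨?_, ?_, ?_⟩
      · have e0 : (((f p) 0 : ℤ) : ℝ) = p.1 := by simp [hf]
        rw [e0, abs_of_pos hq, hX, ← p2]
        exact (sl_spec p1).2.le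
      · have e0 : (((f p) 0 : ℤ) : ℝ) = p.1 := by simp [hf]
        have e1 : (((f p) 1 : ℤ) : ℝ) = round ((p.1 : ℝ) * α) := by simp [hf]
        rw [e0, e1, hY]
        have := nm_lt hb p1
        rw [p2, p3, ← pow_add] at this
        exact this.le
      · have e0 : (((f p) 0 : ℤ) : ℝ) = p.1 := by simp [hf]
        have e1 : (((f p) 2 : ℤ) : ℝ) = p.2 := by simp [hf]
        rw [e0, e1, hZ]
        exact Cen_dist hp)
  rw [hcard] at hlc
  have hb1 : 750 * (X * Y * Z) ≤ (2 : ℝ) ^ (l + j - m + 14) := by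
    have e1 : X * Y * Z = (2 : ℝ) ^ (5 * H + 4) / (2 : ℝ) ^ k₀ := by
      have e0 : X * Y * Z = ((2 : ℝ) ^ (l + 1) * (2 : ℝ) ^ (j + 1) * (2 : ℝ) ^ (l + 2)) /
          ((2 : ℝ) ^ (k₀ + l) * (2 : ℝ) ^ m) := by
        rw [hX, hY, hZ]
        field_simp
      rw [e0, div_eq_div_iff (by positivity) (by positivity)]
      simp only [← pow_add]
      congr 1
      omega
    rw [e1]
    have e2 : (2 : ℝ) ^ (5 * H + 4) / (2 : ℝ) ^ k₀ ≤ (2 : ℝ) ^ (5 * H + 4) :=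
      div_le_self (by positivity) (one_le_pow₀ (by norm_num))
    have e3 : l + j - m + 14 = 10 + (5 * H + 4) := by omega
    rw [e3, pow_add (2 : ℝ) 10 (5 * H + 4)]
    have : (750 : ℝ) ≤ (2 : ℝ) ^ 10 := by norm_num
    calc 750 * ((2 : ℝ) ^ (5 * H + 4) / (2 : ℝ) ^ k₀) ≤ 750 * (2 : ℝ) ^ (5 * H + 4) := by gcongr
      _ ≤ _ := by gcongr
  have hb2 : (2 * ((2 ^ (e + 1) : ℕ) : ℝ) + 1) ^ 2 ≤ (2 : ℝ) ^ (l + j - m + 14) := by
    have e1 : 2 * ((2 ^ (e + 1) : ℕ) : ℝ) + 1 ≤ (2 : ℝ) ^ (e + 3) := by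
      push_cast
      have : (1 : ℝ) ≤ (2 : ℝ) ^ (e + 1) := one_le_pow₀ (by norm_num)
      have e2 : (2 : ℝ) ^ (e + 3) = 4 * (2 : ℝ) ^ (e + 1) := by
        rw [show e + 3 = (e + 1) + 2 by ring, pow_add]
        norm_num
        ring
      rw [e2]
      linarith
    calc (2 * ((2 ^ (e + 1) : ℕ) : ℝ) + 1) ^ 2 ≤ ((2 : ℝ) ^ (e + 3)) ^ 2 := by
          have : (0 : ℝ) ≤ 2 * ((2 ^ (e + 1) : ℕ) : ℝ) + 1 := by positivity
          gcongr
      _ = (2 : ℝ) ^ (2 * e + 6) := by rw [← pow_mul]; congr 1; ring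
      _ ≤ _ := pow_le_pow_iff2.2 (by omega)
  have hfin : ((Cen α k₀ l j m x₀).card : ℝ) ≤ (2 : ℝ) ^ (l + j - m + 14) :=
    hlc.trans (max_le hb1 hb2)
  exact_mod_cast hfin

end Pool.Agent.KS6_31.DB
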