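import Mathlib

set_option autoImplicit false

/-! Survivors in the dyadic tree: counting, and a point of the limit set. -/

open Set Filter
open scoped Classical

namespace Pool.Agent.KS6_31.DB

/-- The surviving dyadic intervals `[k / 2 ^ n, (k + 1) / 2 ^ n]` of level `n`. -/
noncomputable def Surv (Kill : ℕ → ℕ → Prop) : ℕ → Finset ℕ
  | 0 => {0}
  | n + 1 => (Finset.range (2 ^ (n + 1))).filter (fun k => k / 2 ∈ Surv Kill n ∧ ¬ Kill (n + 1) k)

/-- The killed children. -/
noncomputable def Dead (Kill : ℕ → ℕ → Prop) (n : ℕ) : Finset ℕ :=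
  (Finset.range (2 ^ (n + 1))).filter (fun k => k / 2 ∈ Surv Kill n ∧ Kill (n + 1) k)

variable {Kill : ℕ → ℕ → Prop}

lemma mem_dead {n k : ℕ} : k ∈ Dead Kill n ↔
    k < 2 ^ (n + 1) ∧ k / 2 ∈ Surv Kill n ∧ Kill (n + 1) k := by
  simp only [Dead, Finset.mem_filter, Finset.mem_range]

lemma surv_lt {n k : ℕ} (h : k ∈ Surv Kill n) : k < 2 ^ n := by
  cases n with
  | zero => simp [Surv] at h; simp [h]
  | succ n => exact Finset.mem_range.1 (Finset.mem_filter.1 h).1

lemma surv_succ {n k : ℕ} : k ∈ Surv Kill (n + 1) ↔ k / 2 ∈ Surv Kill n ∧ ¬ Kill (n + 1) k := by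
  simp only [Surv, Finset.mem_filter, Finset.mem_range]
  constructor
  · exact fun h => h.2
  · intro h
    refine ⟨?_, h⟩
    have := surv_lt h.1
    rw [pow_succ]
    omega

lemma surv_anc {n k : ℕ} (d : ℕ) (h : k ∈ Surv Kill (n + d)) : k / 2 ^ d ∈ Surv Kill n := by
  induction d generalizing k with
  | zero => simpa using h
  | succ d ih =>
    have h1 : k / 2 ∈ Surv Kill (n + d) := (surv_succ.1 h).1
    have := ih h1
    rwa [Nat.div_div_eq_div_mul, ← pow_succ'] at this

lemma surv_not_kill {n k : ℕ} (hn : 1 ≤ n) (h : k ∈ Surv Kill n) : ¬ Kill n k := by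
  obtain ⟨m, rfl⟩ : ∃ m, n = m + 1 := ⟨n - 1, by omega⟩
  exact (surv_succ.1 h).2

lemma card_children (n : ℕ) :
    (Surv Kill (n + 1)).card + (Dead Kill n).card = 2 * (Surv Kill n).card := by
  have h1 : (Surv Kill (n + 1)).card + (Dead Kill n).card =
      ((Finset.range (2 ^ (n + 1))).filter (fun k => k / 2 ∈ Surv Kill n)).card := by
    rw [← Finset.card_filter_add_card_filter_not (s := (Finset.range (2 ^ (n + 1))).filter
      (fun k => k / 2 ∈ Surv Kill n)) (fun k => Kill (n + 1) k), add_comm]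
    congr 1
    · congr 1
      ext k
      simp only [Dead, Finset.mem_filter, Finset.mem_range]
      tauto
    · congr 1
      ext k
      simp only [Surv, Finset.mem_filter, Finset.mem_range]
      tauto
  rw [h1]
  have h2 : (Finset.range (2 ^ (n + 1))).filter (fun k => k / 2 ∈ Surv Kill n) =
      (Surv Kill n).biUnion (fun i => {2 * i, 2 * i + 1}) := by
    ext k
    simp only [Finset.mem_filter, Finset.mem_range, Finset.mem_biUnion, Finset.mem_insert,
      Finset.mem_singleton]
    constructor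
    · rintro ⟨-, h⟩
      exact ⟨k / 2, h, by omega⟩
    · rintro ⟨i, hi, h⟩
      have := surv_lt hi
      have e : k / 2 = i := by omega
      rw [e]
      refine ⟨?_, hi⟩
      rw [pow_succ]
      omega
  rw [h2, Finset.card_biUnion]
  · rw [Finset.sum_const_nat (m := 2)]
    · ring
    · intro i _
      rw [Finset.card_pair (by omega)]
  · intro i _ j _ hij
    simp only [Function.onFun, Finset.disjoint_left, Finset.mem_insert, Finset.mem_singleton]
    intro a ha hb
    omega

/-- Growth of the number of survivors. -/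
theorem surv_growth {γ : ℝ} (hγ : 1 < γ)
    (hK : ∀ n, (∀ m ≤ n, ((Surv Kill m).card : ℝ) * γ ^ (n - m) ≤ (Surv Kill n).card) →
      ((Dead Kill n).card : ℝ) ≤ (2 - γ) * (Surv Kill n).card) :
    ∀ n, ∀ m ≤ n, ((Surv Kill m).card : ℝ) * γ ^ (n - m) ≤ (Surv Kill n).card := by
  intro n
  induction n with
  | zero =>
    intro m hm
    obtain rfl : m = 0 := by omega
    simp
  | succ n ih =>
    have h1 := hK n ih
    have h2 : ((Surv Kill (n + 1)).card : ℝ) + (Dead Kill n).card = 2 * (Surv Kill n).card := by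
      exact_mod_cast card_children (Kill := Kill) n
    have h3 : γ * (Surv Kill n).card ≤ ((Surv Kill (n + 1)).card : ℝ) := by linarith
    intro m hm
    rcases Nat.lt_or_ge n m with h | h
    · obtain rfl : m = n + 1 := by omega
      simp
    · have e : n + 1 - m = (n - m) + 1 := by omega
      rw [e, pow_succ]
      calc ((Surv Kill m).card : ℝ) * (γ ^ (n - m) * γ) =
          γ * ((Surv Kill m).card * γ ^ (n - m)) := by ring
        _ ≤ γ * (Surv Kill n).card := by
            have := ih m h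
            gcongr
        _ ≤ _ := h3

lemma card_zero : (Surv Kill 0).card = 1 := by simp [Surv]

/-- A point of the limit set. -/
theorem exists_point (hne : ∀ n, (Surv Kill n).Nonempty) :
    ∃ β : ℝ, β ∈ Icc (0 : ℝ) 1 ∧ ∀ n, ∃ k ∈ Surv Kill n, (k : ℝ) / 2 ^ n ≤ β ∧
      β ≤ ((k : ℝ) + 1) / 2 ^ n := by
  set C : ℕ → Set ℝ := fun n => ⋃ k ∈ Surv Kill n, Icc ((k : ℝ) / 2 ^ n) (((k : ℝ) + 1) / 2 ^ n)
    with hC
  have hclosed : ∀ n, IsClosed (C n) := fun n =>
    (Surv Kill n).finite_toSet.isClosed_biUnion (fun k _ => isClosed_Icc)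
  have hmono : ∀ n, C (n + 1) ⊆ C n := by
    intro n x hx
    simp only [hC, mem_iUnion, exists_prop] at hx ⊢
    obtain ⟨k, hk, hx⟩ := hx
    refine ⟨k / 2, (surv_succ.1 hk).1, ?_⟩
    have h2 : (0 : ℝ) < 2 ^ n := by positivity
    have e1 : (2 : ℝ) * ((k / 2 : ℕ) : ℝ) ≤ k := by
      have : 2 * (k / 2) ≤ k := by omega
      exact_mod_cast this
    have e2 : (k : ℝ) + 1 ≤ 2 * (((k / 2 : ℕ) : ℝ) + 1) := by
      have : k + 1 ≤ 2 * (k / 2 + 1) := by omega
      exact_mod_cast this
    obtain ⟨a, b⟩ := hx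
    rw [pow_succ] at a b
    constructor
    · refine le_trans ?_ a
      rw [div_le_div_iff₀ h2 (by positivity)]
      nlinarith
    · refine b.trans ?_
      rw [div_le_div_iff₀ (by positivity) h2]
      nlinarith
  have hnon : ∀ n, (C n).Nonempty := by
    intro n
    obtain ⟨k, hk⟩ := hne n
    refine ⟨(k : ℝ) / 2 ^ n, ?_⟩
    simp only [hC, mem_iUnion, exists_prop]
    refine ⟨k, hk, le_rfl, ?_⟩
    gcongr
    linarith
  have hcomp : IsCompact (C 0) := by
    simp only [hC, Surv, Finset.mem_singleton, iUnion_iUnion_eq_left]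
    exact isCompact_Icc
  obtain ⟨β, hβ⟩ := IsCompact.nonempty_iInter_of_sequence_nonempty_isCompact_isClosed C hmono hnon
    hcomp hclosed
  rw [mem_iInter] at hβ
  refine ⟨β, ?_, ?_⟩
  · have := hβ 0
    simp only [hC, Surv, Finset.mem_singleton, iUnion_iUnion_eq_left] at this
    simpa using this
  · intro n
    have := hβ n
    simp only [hC, mem_iUnion, exists_prop] at this
    exact this

end Pool.Agent.KS6_31.DB
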