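import Mathlib
import Pool.Agent.KS6_31.DB.Count
import Pool.Agent.KS6_31.DB.Tree

set_option autoImplicit false

/-! The intervals killed by the denominators of one badly approximable number. -/

open Set Filter
open scoped Classical

namespace Pool.Agent.KS6_31.DB

variable {α : ℝ} {k₀ : ℕ} {h : ℕ → ℕ} {Kill : ℕ → ℕ → Prop}

/-- The interval `k` of level `n` is close to a rational number `r / q` with `q` of level `n`. -/
def KillA (α : ℝ) (k₀ : ℕ) (h : ℕ → ℕ) (n k : ℕ) : Prop :=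
  ∃ q : ℕ, 1 ≤ q ∧ lev α k₀ h q = n ∧ ∃ r : ℤ, (k : ℝ) - 1 < 2 ^ n * ((r : ℝ) / q) ∧
    2 ^ n * ((r : ℝ) / q) < (k : ℝ) + 2

lemma dist_of_not_kill {n k : ℕ} (hk : ¬ KillA α k₀ h n k) {x : ℝ} (h1 : (k : ℝ) / 2 ^ n ≤ x)
    (h2 : x ≤ ((k : ℝ) + 1) / 2 ^ n) {q : ℕ} (hq : 1 ≤ q) (hl : lev α k₀ h q = n) (r : ℤ) :
    1 / (2 : ℝ) ^ n ≤ |x - r / q| := by
  by_contra hlt
  push Not at hlt
  apply hk
  refine ⟨q, hq, hl, r, ?_, ?_⟩
  all_goals
    have hp : (0 : ℝ) < 2 ^ n := by positivity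
    rw [div_le_iff₀ hp] at h1
    rw [le_div_iff₀ hp] at h2
    rw [lt_div_iff₀ hp] at hlt
    obtain ⟨ha, hb⟩ := abs_le.1 (le_of_lt (show |(x - r / q) * 2 ^ n| < 1 by
      rw [abs_mul, abs_of_pos hp]; exact hlt))
    have hlt' : |(x - r / q) * 2 ^ n| < 1 := by rw [abs_mul, abs_of_pos hp]; exact hlt
    obtain ⟨ha, hb⟩ := abs_lt.1 hlt'
    nlinarith

lemma surv_dist (hpos : ∀ a, 1 ≤ h a) (hsub : ∀ n k, KillA α k₀ h n k → Kill n k) {m k : ℕ}
    (hk : k ∈ Surv Kill m) {x : ℝ} (h1 : (k : ℝ) / 2 ^ m ≤ x) (h2 : x ≤ ((k : ℝ) + 1) / 2 ^ m)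
    {q : ℕ} (hq : 1 ≤ q) (hl : lev α k₀ h q ≤ m) (r : ℤ) :
    1 / (2 : ℝ) ^ lev α k₀ h q ≤ |x - r / q| := by
  set n := lev α k₀ h q with hn
  obtain ⟨d, rfl⟩ : ∃ d, m = n + d := ⟨m - n, by omega⟩
  have hk' := surv_anc d hk
  have hn1 : 1 ≤ n := by
    have := hpos (sa k₀ (Nat.log 2 q) (sj α k₀ q))
    rw [hn]
    unfold lev
    omega
  have hnk : ¬ KillA α k₀ h n (k / 2 ^ d) := fun hc => surv_not_kill hn1 hk' (hsub _ _ hc)
  have hpn : (0 : ℝ) < 2 ^ n := by positivity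
  have hpd : (0 : ℝ) < 2 ^ d := by positivity
  have e1 : (((k / 2 ^ d : ℕ) : ℝ)) * 2 ^ d ≤ k := by
    have := Nat.div_mul_le_self k (2 ^ d)
    exact_mod_cast this
  have e2 : (k : ℝ) + 1 ≤ (((k / 2 ^ d : ℕ) : ℝ) + 1) * 2 ^ d := by
    have : k + 1 ≤ (k / 2 ^ d + 1) * 2 ^ d := by
      have := Nat.lt_div_mul_add (a := k) (b := 2 ^ d) (by positivity)
      rw [add_mul, one_mul]
      omega
    exact_mod_cast this
  rw [pow_add] at h1 h2
  refine dist_of_not_kill hnk ?_ ?_ hq rfl r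
  · refine le_trans ?_ h1
    rw [div_le_div_iff₀ hpn (by positivity)]
    calc ((k / 2 ^ d : ℕ) : ℝ) * (2 ^ n * 2 ^ d) = (((k / 2 ^ d : ℕ) : ℝ) * 2 ^ d) * 2 ^ n := by ring
      _ ≤ k * 2 ^ n := by gcongr
  · refine h2.trans ?_
    rw [div_le_div_iff₀ (by positivity) hpn]
    calc ((k : ℝ) + 1) * 2 ^ n ≤ ((((k / 2 ^ d : ℕ) : ℝ) + 1) * 2 ^ d) * 2 ^ n := by gcongr
      _ = _ := by ring

/-- The shapes of level `n`. -/
def Shp (k₀ : ℕ) (h : ℕ → ℕ) (n : ℕ) : Finset (ℕ × ℕ) :=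
  ((Finset.range (n + 1)) ×ˢ (Finset.range (n + 1))).filter
    (fun p => p.2 < p.1 + k₀ ∧ p.1 + p.2 + h (sa k₀ p.1 p.2) = n)

/-- The ancestor level. -/
def anc (k₀ : ℕ) (h : ℕ → ℕ) (p : ℕ × ℕ) : ℕ := p.1 + p.2 - 5 * h (sa k₀ p.1 p.2)

/-- The intervals of level `n + 1` killed by `α`. -/
noncomputable def DeadA (α : ℝ) (k₀ : ℕ) (h : ℕ → ℕ) (Kill : ℕ → ℕ → Prop) (n : ℕ) : Finset ℕ :=
  (Finset.range (2 ^ (n + 1))).filter (fun k => k / 2 ∈ Surv Kill n ∧ KillA α k₀ h (n + 1) k)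

lemma mem_deadA {n k : ℕ} : k ∈ DeadA α k₀ h Kill n ↔
    k < 2 ^ (n + 1) ∧ k / 2 ∈ Surv Kill n ∧ KillA α k₀ h (n + 1) k := by
  simp only [DeadA, Finset.mem_filter, Finset.mem_range]

theorem card_DeadA (hb : Bad α k₀) (hH : Slow h) (hpos : ∀ a, 1 ≤ h a)
    (hsub : ∀ n k, KillA α k₀ h n k → Kill n k) (n : ℕ) :
    (DeadA α k₀ h Kill n).card ≤ ∑ p ∈ Shp k₀ h (n + 1),
      (Surv Kill (anc k₀ h p)).card * (2 ^ (p.1 + p.2 - anc k₀ h p + 14) * 3) := by
  set T : ℕ × ℤ → Finset ℕ := fun p =>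
    (Finset.Icc (⌊2 ^ (n + 1) * ((p.2 : ℝ) / p.1)⌋ - 1) (⌊2 ^ (n + 1) * ((p.2 : ℝ) / p.1)⌋ + 1)).image
      Int.toNat with hT
  have hTc : ∀ p, (T p).card ≤ 3 := by
    intro p
    refine Finset.card_image_le.trans ?_
    rw [Int.card_Icc]
    omega
  have hsub2 : DeadA α k₀ h Kill n ⊆ (Shp k₀ h (n + 1)).biUnion (fun p =>
      (Surv Kill (anc k₀ h p)).biUnion (fun i =>
        (Cen α k₀ p.1 p.2 (anc k₀ h p) ((i : ℝ) / 2 ^ (anc k₀ h p))).biUnion T)) := by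
    intro k hk
    obtain ⟨-, hk1, q, hq, hlev, r, hr1, hr2⟩ := Finset.mem_filter.1 hk
    set l := Nat.log 2 q with hl
    set j := sj α k₀ q with hj
    have hjl : j < l + k₀ := sj_lt hb hq
    have hlev' : l + j + h (sa k₀ l j) = n + 1 := hlev
    have hp := hpos (sa k₀ l j)
    have hmem : (l, j) ∈ Shp k₀ h (n + 1) := by
      simp only [Shp, Finset.mem_filter, Finset.mem_product, Finset.mem_range]
      exact ⟨⟨by omega, by omega⟩, hjl, hlev'⟩
    set m := anc k₀ h (l, j) with hm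
    have hmn : m ≤ n := by
      rw [hm]
      unfold anc
      simp only
      omega
    have hi : k / 2 ^ (n + 1 - m) ∈ Surv Kill m := by
      have e : n = m + (n - m) := by omega
      have : k / 2 / 2 ^ (n - m) ∈ Surv Kill m := by
        apply surv_anc (n - m)
        rw [← e]
        exact hk1
      rw [Nat.div_div_eq_div_mul, ← pow_succ'] at this
      have e2 : n + 1 - m = n - m + 1 := by omega
      rw [e2]
      exact this
    simp only [Finset.mem_biUnion]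
    refine ⟨(l, j), hmem, k / 2 ^ (n + 1 - m), hi, (q, r), ?_, ?_⟩
    · -- the center
      set x₀ : ℝ := ((k / 2 ^ (n + 1 - m) : ℕ) : ℝ) / 2 ^ m with hx₀
      have hqR : (0 : ℝ) < q := by exact_mod_cast hq
      have hpn : (0 : ℝ) < 2 ^ (n + 1) := by positivity
      have hpm : (0 : ℝ) < 2 ^ m := by positivity
      have hpd : (0 : ℝ) < 2 ^ (n + 1 - m) := by positivity
      have epow : (2 : ℝ) ^ (n + 1) = 2 ^ m * 2 ^ (n + 1 - m) := by
        rw [← pow_add]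
        congr 1
        omega
      have e1 : (((k / 2 ^ (n + 1 - m) : ℕ) : ℝ)) * 2 ^ (n + 1 - m) ≤ k := by
        have := Nat.div_mul_le_self k (2 ^ (n + 1 - m))
        exact_mod_cast this
      have e2 : (k : ℝ) + 1 ≤ (((k / 2 ^ (n + 1 - m) : ℕ) : ℝ) + 1) * 2 ^ (n + 1 - m) := by
        have : k + 1 ≤ (k / 2 ^ (n + 1 - m) + 1) * 2 ^ (n + 1 - m) := by
          have := Nat.lt_div_mul_add (a := k) (b := 2 ^ (n + 1 - m)) (by positivity)
          rw [add_mul, one_mul]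
          omega
        exact_mod_cast this
      have e3 : (2 : ℝ) ≤ 2 ^ (n + 1 - m) := by
        calc (2 : ℝ) = 2 ^ 1 := (pow_one _).symm
          _ ≤ _ := pow_le_pow_iff2.2 (by omega)
      have hdist : |(r : ℝ) / q - x₀| ≤ 2 / 2 ^ m := by
        have a1 : (r : ℝ) / q * 2 ^ (n + 1) < (((k / 2 ^ (n + 1 - m) : ℕ) : ℝ) + 2) * 2 ^ (n + 1 - m) := by
          nlinarith
        have a2 : ((((k / 2 ^ (n + 1 - m) : ℕ) : ℝ)) - 1) * 2 ^ (n + 1 - m) < (r : ℝ) / q * 2 ^ (n + 1) := by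
          nlinarith
        rw [epow, ← mul_assoc] at a1 a2
        have a3 := lt_of_mul_lt_mul_right a1 hpd.le
        have a4 := lt_of_mul_lt_mul_right a2 hpd.le
        rw [abs_le]
        constructor
        · have : x₀ - 2 / 2 ^ m ≤ (r : ℝ) / q := by
            rw [hx₀, ← sub_div, div_le_iff₀ hpm]
            linarith
          linarith
        · have : (r : ℝ) / q ≤ x₀ + 2 / 2 ^ m := by
            rw [hx₀, ← add_div, le_div_iff₀ hpm]
            linarith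
          linarith
      have hx01 : 0 ≤ x₀ ∧ x₀ ≤ 1 := by
        constructor
        · positivity
        · rw [hx₀, div_le_one hpm]
          have := surv_lt hi
          exact_mod_cast this.le
      have hq2 : (q : ℝ) < 2 ^ (l + 1) := (sl_spec hq).2
      unfold Cen
      rw [Finset.mem_filter]
      refine ⟨?_, hq, rfl, rfl, hdist⟩
      rw [Finset.mem_product, Finset.mem_range, Finset.mem_Icc]
      have h2m : (2 : ℝ) / 2 ^ m ≤ 2 := div_le_self (by norm_num) (one_le_pow₀ (by norm_num))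
      have hr3 : |(r : ℝ) / q| ≤ 3 := by
        obtain ⟨b1, b2⟩ := abs_le.1 hdist
        rw [abs_le]
        constructor <;> linarith [hx01.1, hx01.2]
      have hr4 : |(r : ℝ)| ≤ 2 ^ (l + 3) := by
        rw [abs_div, abs_of_pos hqR, div_le_iff₀ hqR] at hr3
        calc |(r : ℝ)| ≤ 3 * q := hr3
          _ ≤ 4 * 2 ^ (l + 1) := by nlinarith
          _ = 2 ^ (l + 3) := by rw [show l + 3 = l + 1 + 2 by ring, pow_add (2 : ℝ) (l + 1) 2]; ring
      obtain ⟨c1, c2⟩ := abs_le.1 hr4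
      refine ⟨by exact_mod_cast hq2, ?_, ?_⟩
      · have : ((-2 ^ (l + 3) : ℤ) : ℝ) ≤ r := by push_cast; exact c1
        exact_mod_cast this
      · have : (r : ℝ) ≤ ((2 ^ (l + 3) : ℤ) : ℝ) := by push_cast; exact c2
        exact_mod_cast this
    · -- the interval
      rw [hT]
      simp only [Finset.mem_image, Finset.mem_Icc]
      refine ⟨(k : ℤ), ⟨?_, ?_⟩, by simp⟩
      · have h1 := Int.floor_le (2 ^ (n + 1) * ((r : ℝ) / q))
        have : ((⌊2 ^ (n + 1) * ((r : ℝ) / q)⌋ : ℤ) : ℝ) < (((k : ℤ) + 2 : ℤ) : ℝ) := by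
          push_cast
          linarith
        have : ⌊2 ^ (n + 1) * ((r : ℝ) / q)⌋ < (k : ℤ) + 2 := by exact_mod_cast this
        omega
      · have h1 := Int.lt_floor_add_one (2 ^ (n + 1) * ((r : ℝ) / q))
        have : (((k : ℤ) - 1 : ℤ) : ℝ) < ((⌊2 ^ (n + 1) * ((r : ℝ) / q)⌋ + 1 : ℤ) : ℝ) := by
          push_cast
          linarith
        have : (k : ℤ) - 1 < ⌊2 ^ (n + 1) * ((r : ℝ) / q)⌋ + 1 := by exact_mod_cast this
        omega
  refine (Finset.card_le_card hsub2).trans (Finset.card_biUnion_le.trans (Finset.sum_le_sum ?_))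
  intro p hp
  apply Finset.card_biUnion_le_card_mul
  intro i hi
  obtain ⟨-, hp1, -⟩ := Finset.mem_filter.1 hp
  refine (Finset.card_biUnion_le_card_mul _ _ 3 (fun a _ => hTc a)).trans ?_
  gcongr
  refine card_Cen hb hH hp1 rfl _ ?_
  intro q hq hl r
  refine surv_dist hpos hsub hi le_rfl ?_ hq hl r
  gcongr
  linarith

/-- The shapes of a level are counted by their distances to the walls. -/
lemma sum_shapes (n : ℕ) (f : ℕ → ℝ) (hf0 : ∀ a, 0 ≤ f a) (hf : Summable f) :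
    ∑ p ∈ Shp k₀ h n, f (sa k₀ p.1 p.2) ≤ 2 * ∑' a, f a := by
  have part : ∀ (P : ℕ × ℕ → Prop) [DecidablePred P], Set.InjOn (fun p : ℕ × ℕ => sa k₀ p.1 p.2)
      (((Shp k₀ h n).filter P : Finset (ℕ × ℕ)) : Set (ℕ × ℕ)) →
      ∑ p ∈ (Shp k₀ h n).filter P, f (sa k₀ p.1 p.2) ≤ ∑' a, f a := by
    intro P _ hP
    have h1 := Finset.sum_image (f := f) hP
    rw [← h1]
    exact hf.sum_le_tsum _ (fun a _ => hf0 a)
  rw [← Finset.sum_filter_add_sum_filter_not (Shp k₀ h n) (fun p => p.2 ≤ p.1 + k₀ - p.2), two_mul]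
  refine add_le_add (part _ ?_) (part _ ?_)
  · intro p hp p' hp' he
    simp only [Finset.coe_filter, Shp, Finset.mem_filter, Finset.mem_product, Finset.mem_range,
      Set.mem_ofPred_eq] at hp hp' he
    obtain ⟨⟨-, a1, a2⟩, a3⟩ := hp
    obtain ⟨⟨-, b1, b2⟩, b3⟩ := hp'
    rw [he] at a2
    unfold sa at he
    rw [min_eq_left a3, min_eq_left b3] at he
    exact Prod.ext (by omega) he
  · intro p hp p' hp' he
    simp only [Finset.coe_filter, Shp, Finset.mem_filter, Finset.mem_product, Finset.mem_range,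
      Set.mem_ofPred_eq, not_le] at hp hp' he
    obtain ⟨⟨-, a1, a2⟩, a3⟩ := hp
    obtain ⟨⟨-, b1, b2⟩, b3⟩ := hp'
    rw [he] at a2
    unfold sa at he
    rw [min_eq_right a3.le, min_eq_right b3.le] at he
    exact Prod.ext (by omega) (by omega)

/-- The proportion of the intervals killed by one number. -/
theorem dead_le (hb : Bad α k₀) (hH : Slow h) (hpos : ∀ a, 1 ≤ h a)
    (hsub : ∀ n k, KillA α k₀ h n k → Kill n k) {γ : ℝ} (hγ1 : 1 < γ) (hγ2 : γ < 2)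
    (hsum : Summable fun a => (32 / γ ^ 6) ^ h a) (n : ℕ)
    (hgrow : ∀ m ≤ n, ((Surv Kill m).card : ℝ) * γ ^ (n - m) ≤ (Surv Kill n).card) :
    ((DeadA α k₀ h Kill n).card : ℝ) ≤
      196608 * (∑' a, (32 / γ ^ 6) ^ h a) * (Surv Kill n).card := by
  have hγ0 : 0 < γ := by linarith
  have hS0 : (0 : ℝ) ≤ (Surv Kill n).card := Nat.cast_nonneg _
  have h1 : ((DeadA α k₀ h Kill n).card : ℝ) ≤ ∑ p ∈ Shp k₀ h (n + 1),
      ((Surv Kill (anc k₀ h p)).card : ℝ) * (2 ^ (p.1 + p.2 - anc k₀ h p + 14) * 3) := by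
    exact_mod_cast card_DeadA hb hH hpos hsub n
  have h2 : ∀ p ∈ Shp k₀ h (n + 1),
      ((Surv Kill (anc k₀ h p)).card : ℝ) * (2 ^ (p.1 + p.2 - anc k₀ h p + 14) * 3) ≤
      (98304 * (Surv Kill n).card) * (32 / γ ^ 6) ^ h (sa k₀ p.1 p.2) := by
    intro p hp
    obtain ⟨-, hp1, hp2⟩ := Finset.mem_filter.1 hp
    have hpp := hpos (sa k₀ p.1 p.2)
    set H := h (sa k₀ p.1 p.2) with hH'
    set m := anc k₀ h p with hm
    have hm' : m = p.1 + p.2 - 5 * H := rfl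
    set d := p.1 + p.2 - m with hd
    have hmn : m ≤ n := by omega
    have hnm : n - m = d + (H - 1) := by omega
    have hg := hgrow m hmn
    rw [hnm, pow_add] at hg
    have hpd : 0 < γ ^ d := by positivity
    have hpH : 0 < γ ^ (H - 1) := by positivity
    have h3 : ((Surv Kill m).card : ℝ) ≤ (Surv Kill n).card / (γ ^ d * γ ^ (H - 1)) := by
      rw [le_div_iff₀ (by positivity)]
      exact hg
    have h4 : (2 : ℝ) ^ d / γ ^ d ≤ (2 / γ) ^ (5 * H) := by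
      rw [← div_pow]
      apply pow_le_pow_right₀
      · rw [le_div_iff₀ hγ0]
        linarith
      · omega
    have h5 : 1 / γ ^ (H - 1) ≤ 2 * (1 / γ) ^ H := by
      obtain ⟨t, ht⟩ : ∃ t, H = t + 1 := ⟨H - 1, by omega⟩
      rw [ht, Nat.add_sub_cancel, one_div_pow, pow_succ, mul_one_div, div_le_div_iff₀ (by positivity)
        (by positivity)]
      nlinarith [pow_pos hγ0 t]
    have h6 : (2 / γ) ^ (5 * H) * (1 / γ) ^ H = (32 / γ ^ 6) ^ H := by
      rw [pow_mul, ← mul_pow]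
      congr 1
      field_simp
      norm_num
    calc ((Surv Kill m).card : ℝ) * (2 ^ (d + 14) * 3)
        ≤ (Surv Kill n).card / (γ ^ d * γ ^ (H - 1)) * (2 ^ (d + 14) * 3) := by gcongr
      _ = (49152 * (Surv Kill n).card) * ((2 ^ d / γ ^ d) * (1 / γ ^ (H - 1))) := by
          rw [pow_add]
          field_simp
          ring
      _ ≤ (49152 * (Surv Kill n).card) * ((2 / γ) ^ (5 * H) * (2 * (1 / γ) ^ H)) := by gcongr
      _ = (98304 * (Surv Kill n).card) * ((2 / γ) ^ (5 * H) * (1 / γ) ^ H) := by ring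
      _ = _ := by rw [h6]
  calc ((DeadA α k₀ h Kill n).card : ℝ) ≤ _ := h1
    _ ≤ ∑ p ∈ Shp k₀ h (n + 1), (98304 * ((Surv Kill n).card : ℝ)) *
        (32 / γ ^ 6) ^ h (sa k₀ p.1 p.2) := Finset.sum_le_sum h2
    _ = (98304 * ((Surv Kill n).card : ℝ)) * ∑ p ∈ Shp k₀ h (n + 1),
        (32 / γ ^ 6) ^ h (sa k₀ p.1 p.2) := by rw [Finset.mul_sum]
    _ ≤ (98304 * ((Surv Kill n).card : ℝ)) * (2 * ∑' a, (32 / γ ^ 6) ^ h a) := by
        have := sum_shapes (k₀ := k₀) (h := h) (n + 1) (fun a => (32 / γ ^ 6) ^ h a)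
          (fun a => by positivity) hsum
        gcongr
    _ = _ := by ring

end Pool.Agent.KS6_31.DB
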