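import Mathlib
import Pool.Agent.KS6_31.DB.Kill

set_option autoImplicit false

/-! The function `h a = ⌈(1 + η) log₂ (a + K)⌉`. -/

open Set Filter Topology

namespace Pool.Agent.KS6_31.DB

/-- The exponent of the threshold. -/
noncomputable def hh (η : ℝ) (K : ℕ) (a : ℕ) : ℕ := ⌈(1 + η) * Real.logb 2 (a + K)⌉₊

variable {η : ℝ} {K : ℕ}

lemma logb_le (x : ℝ) (hx : 0 < x) : Real.logb 2 x ≤ x / 44 + 6 := by
  have h1 := Real.log_le_sub_one_of_pos (show 0 < x / 64 by positivity)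
  have h2 : Real.log (x / 64) = Real.log x - 6 * Real.log 2 := by
    rw [Real.log_div hx.ne' (by norm_num), show (64 : ℝ) = 2 ^ 6 by norm_num, Real.log_pow]
    norm_num
  have h3 : (0.6931471803 : ℝ) < Real.log 2 := Real.log_two_gt_d9
  rw [Real.logb, div_le_iff₀ (by linarith)]
  nlinarith

lemma logb_ge (hK : 256 ≤ K) (a : ℕ) : 8 ≤ Real.logb 2 ((a : ℝ) + K) := by
  rw [Real.le_logb_iff_rpow_le (by norm_num) (by positivity)]
  have : (256 : ℝ) ≤ K := by exact_mod_cast hK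
  have h2 : ((2 : ℝ) ^ (8 : ℝ)) = 256 := by
    rw [show (8 : ℝ) = ((8 : ℕ) : ℝ) by norm_num, Real.rpow_natCast]
    norm_num
  rw [h2]
  have : (0 : ℝ) ≤ a := Nat.cast_nonneg a
  linarith

lemma hh_ge (a : ℕ) : (1 + η) * Real.logb 2 (a + K) ≤ hh η K a := Nat.le_ceil _

lemma hh_le (hη : 0 ≤ η) (hK : 256 ≤ K) (a : ℕ) :
    (hh η K a : ℝ) ≤ (1 + η) * Real.logb 2 (a + K) + 1 := by
  have := logb_ge hK a
  exact (Nat.ceil_lt_add_one (by positivity)).le

lemma hh_pos (hη : 0 ≤ η) (hK : 256 ≤ K) (a : ℕ) : 1 ≤ hh η K a := by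
  have h1 := hh_ge (η := η) (K := K) a
  have h2 := logb_ge hK a
  have : (1 : ℝ) ≤ hh η K a := by nlinarith
  exact_mod_cast this

lemma hh_slow (hη : 0 ≤ η) (hη1 : η ≤ 1) (hK : 256 ≤ K) : Slow (hh η K) := by
  intro a a' h
  have hR : (a' : ℝ) ≤ a + 5 * hh η K a + hh η K a' + 2 := by exact_mod_cast h
  have hKR : (256 : ℝ) ≤ K := by exact_mod_cast hK
  have ha : (0 : ℝ) ≤ a := Nat.cast_nonneg a
  have ha' : (0 : ℝ) ≤ a' := Nat.cast_nonneg a'
  set T : ℝ := (a : ℝ) + K with hT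
  set T' : ℝ := (a' : ℝ) + K with hT'
  have hTp : 256 ≤ T := by linarith
  have hTp' : 256 ≤ T' := by linarith
  have l1 := hh_le hη hK a
  have l2 := hh_le hη hK a'
  have g1 := logb_ge hK a
  have g2 := logb_ge hK a'
  rw [← hT] at l1 g1
  rw [← hT'] at l2 g2
  have key : T' ≤ 4 * T := by
    by_contra hlt
    push Not at hlt
    have m1 : Real.logb 2 T ≤ Real.logb 2 T' :=
      Real.logb_le_logb_of_le (by norm_num) (by linarith) (by linarith)
    have m2 := logb_le T' (by linarith)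
    have n1 : (hh η K a : ℝ) ≤ 2 * Real.logb 2 T' + 1 := by nlinarith
    have n2 : (hh η K a' : ℝ) ≤ 2 * Real.logb 2 T' + 1 := by nlinarith
    have : T' ≤ T + 12 * Real.logb 2 T' + 8 := by linarith
    nlinarith
  have h3 : Real.logb 2 T' ≤ Real.logb 2 T + 2 := by
    have h4 : Real.logb 2 (4 * T) = 2 + Real.logb 2 T := by
      rw [Real.logb_mul (by norm_num) (by linarith), show (4 : ℝ) = 2 ^ (2 : ℝ) by norm_num,
        Real.logb_rpow (by norm_num) (by norm_num)]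
    have := Real.logb_le_logb_of_le (b := 2) (by norm_num) (by linarith) key
    linarith
  have h5 : (1 + η) * Real.logb 2 T' ≤ (1 + η) * Real.logb 2 T + 4 := by nlinarith
  have h6 : hh η K a' ≤ hh η K a + 5 := by
    have h7 : (hh η K a' : ℝ) ≤ ((hh η K a + 5 : ℕ) : ℝ) := by
      have := hh_ge (η := η) (K := K) a
      rw [← hT] at this
      push_cast
      linarith
    exact_mod_cast h7
  exact h6

lemma hh_ge_index (hη : 0 ≤ η) {i : ℕ} (hi : 2 ^ (i + 1) ≤ K) (a : ℕ) : i + 1 ≤ hh η K a := by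
  have h1 := hh_ge (η := η) (K := K) a
  have h2 : ((i : ℝ) + 1) ≤ Real.logb 2 (a + K) := by
    have hK : ((2 : ℝ) ^ (i + 1)) ≤ K := by exact_mod_cast hi
    have hK0 : (0 : ℝ) < K := lt_of_lt_of_le (by positivity) hK
    rw [Real.le_logb_iff_rpow_le (by norm_num) (by positivity)]
    have e : ((2 : ℝ) ^ ((i : ℝ) + 1)) = 2 ^ (i + 1) := by
      rw [show (i : ℝ) + 1 = ((i + 1 : ℕ) : ℝ) by push_cast; ring, Real.rpow_natCast]
    rw [e]
    have : (0 : ℝ) ≤ a := Nat.cast_nonneg a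
    linarith
  have h3 : (((i + 1 : ℕ)) : ℝ) ≤ hh η K a := by
    push_cast
    nlinarith [(Nat.cast_nonneg i : (0 : ℝ) ≤ i)]
  exact_mod_cast h3

/-- The series is small for large `K`. -/
theorem tail_small {ρ : ℝ} (hρ0 : 0 < ρ) (hρ1 : ρ < 1)
    (hρ : 1 < (1 + η) * Real.logb 2 (1 / ρ)) (ε : ℝ) (hε : 0 < ε) (K₁ : ℕ) :
    ∃ K : ℕ, K₁ ≤ K ∧ (Summable fun a => ρ ^ hh η K a) ∧ ∑' a, ρ ^ hh η K a ≤ ε := by
  set p := (1 + η) * Real.logb 2 (1 / ρ) with hp
  have hsum : Summable (fun n : ℕ => 1 / (n : ℝ) ^ p) := Real.summable_one_div_nat_rpow.2 hρ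
  have htend := tendsto_sum_nat_add (fun n : ℕ => 1 / (n : ℝ) ^ p)
  have hev := (htend.eventually (gt_mem_nhds hε)).and (eventually_ge_atTop (max K₁ 1))
  obtain ⟨K, hK1, hK2⟩ := hev.exists
  have hK3 : 1 ≤ K := (le_max_right _ _).trans hK2
  have hsumK : Summable (fun a : ℕ => 1 / ((a + K : ℕ) : ℝ) ^ p) :=
    (summable_nat_add_iff (f := fun n : ℕ => 1 / (n : ℝ) ^ p) K).2 hsum
  have hle : ∀ a : ℕ, ρ ^ hh η K a ≤ 1 / ((a + K : ℕ) : ℝ) ^ p := by
    intro a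
    have hx : (0 : ℝ) < (a : ℝ) + K := by
      have : (1 : ℝ) ≤ K := by exact_mod_cast hK3
      positivity
    have h1 : ρ ^ hh η K a ≤ ρ ^ ((1 + η) * Real.logb 2 (a + K)) := by
      rw [← Real.rpow_natCast]
      exact Real.rpow_le_rpow_of_exponent_ge hρ0 hρ1.le (hh_ge a)
    refine h1.trans (le_of_eq ?_)
    have h2 : ρ = (2 : ℝ) ^ (-Real.logb 2 (1 / ρ)) := by
      rw [one_div, Real.logb_inv, neg_neg, Real.rpow_logb (by norm_num) (by norm_num) hρ0]
    have h3 : ((a + K : ℕ) : ℝ) ^ p = (2 : ℝ) ^ (Real.logb 2 (a + K) * p) := by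
      push_cast
      rw [Real.rpow_mul (show (0 : ℝ) ≤ 2 by norm_num) (Real.logb 2 ((a : ℝ) + K)) p,
        Real.rpow_logb (show (0 : ℝ) < 2 by norm_num) (by norm_num) hx]
    rw [h3, one_div, ← Real.rpow_neg (by norm_num)]
    conv_lhs => rw [h2]
    rw [← Real.rpow_mul (by norm_num)]
    congr 1
    rw [hp]
    ring
  have hs : Summable fun a => ρ ^ hh η K a :=
    Summable.of_nonneg_of_le (fun a => by positivity) hle hsumK
  refine ⟨K, (le_max_left _ _).trans hK2, hs, ?_⟩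
  exact (hs.tsum_le_tsum hle hsumK).trans hK1.le

end Pool.Agent.KS6_31.DB
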