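import Mathlib
import Pool.Agent.KS6_31.DB.Numeric

set_option autoImplicit false

/-! Points avoiding the neighbourhoods of the rational numbers and a small family of balls. -/

open Set Filter Topology Metric MeasureTheory
open scoped NNReal ENNReal Classical

namespace Pool.Agent.KS6_31.DB

theorem avoid {γ : ℝ} (hγ1 : 1 < γ) (hγ2 : γ < 2) (αs : ℕ → ℝ) (k₀ : ℕ → ℕ) (hf : ℕ → ℕ → ℕ)
    (hb : ∀ i, Bad (αs i) (k₀ i)) (hH : ∀ i, Slow (hf i)) (hpos : ∀ i a, i + 1 ≤ hf i a)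
    (hsum : ∀ i, Summable fun a => (32 / γ ^ 6) ^ hf i a)
    (hsmall : ∀ i, 196608 * ∑' a, (32 / γ ^ 6) ^ hf i a ≤ (2 - γ) / 4 * (1 / 2) ^ i)
    (T : ℕ → Finset ℕ) (hT : ∀ n, ((T (n + 1)).card : ℝ) ≤ (2 - γ) / 2 * γ ^ n) :
    ∃ β ∈ Icc (0 : ℝ) 1, (∀ i q : ℕ, 1 ≤ q → ∀ r : ℤ,
        1 / (2 : ℝ) ^ lev (αs i) (k₀ i) (hf i) q ≤ |β - r / q|) ∧
      ∀ n, 1 ≤ n → ∃ k : ℕ, (k : ℝ) / 2 ^ n ≤ β ∧ β ≤ ((k : ℝ) + 1) / 2 ^ n ∧ k ∉ T n := by
  set Kill : ℕ → ℕ → Prop := fun n k => (∃ i, KillA (αs i) (k₀ i) (hf i) n k) ∨ k ∈ T n with hKill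
  have hsub : ∀ i n k, KillA (αs i) (k₀ i) (hf i) n k → Kill n k := fun i n k hk => Or.inl ⟨i, hk⟩
  have hpos1 : ∀ i a, 1 ≤ hf i a := fun i a => by
    have := hpos i a
    omega
  have hgrow := surv_growth (Kill := Kill) hγ1 (by
    intro n hg
    have h1 : Dead Kill n ⊆ ((Finset.range (n + 1)).biUnion
        (fun i => DeadA (αs i) (k₀ i) (hf i) Kill n)) ∪ T (n + 1) := by
      intro k hk
      obtain ⟨k1, k2, k3⟩ := mem_dead.1 hk
      rw [Finset.mem_union, Finset.mem_biUnion]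
      rcases k3 with ⟨i, hi⟩ | hi
      · left
        refine ⟨i, ?_, mem_deadA.2 ⟨k1, k2, hi⟩⟩
        obtain ⟨q, -, hq, -⟩ := hi
        rw [Finset.mem_range]
        have := hpos i (sa (k₀ i) (Nat.log 2 q) (sj (αs i) (k₀ i) q))
        unfold lev at hq
        omega
      · right
        exact hi
    have h2 : ((Dead Kill n).card : ℝ) ≤ (∑ i ∈ Finset.range (n + 1),
        ((DeadA (αs i) (k₀ i) (hf i) Kill n).card : ℝ)) + (T (n + 1)).card := by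
      have := (Finset.card_le_card h1).trans (Finset.card_union_le _ _)
      have h3 := this.trans (Nat.add_le_add_right (Finset.card_biUnion_le) _)
      exact_mod_cast h3
    have hS0 : (0 : ℝ) ≤ (Surv Kill n).card := Nat.cast_nonneg _
    have h4 : ∀ i ∈ Finset.range (n + 1), ((DeadA (αs i) (k₀ i) (hf i) Kill n).card : ℝ) ≤
        ((2 - γ) / 4 * (Surv Kill n).card) * (1 / 2) ^ i := by
      intro i _
      have := dead_le (hb i) (hH i) (hpos1 i) (hsub i) hγ1 hγ2 (hsum i) n hg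
      refine this.trans ?_
      calc _ ≤ ((2 - γ) / 4 * (1 / 2) ^ i) * ((Surv Kill n).card : ℝ) :=
            mul_le_mul_of_nonneg_right (hsmall i) hS0
        _ = _ := by ring
    have h5 : ∑ i ∈ Finset.range (n + 1), ((1 : ℝ) / 2) ^ i ≤ 2 := by
      rw [geom_sum_eq (by norm_num)]
      have : (0 : ℝ) < (1 / 2) ^ (n + 1) := by positivity
      rw [div_le_iff_of_neg (by norm_num)]
      linarith
    have h6 : γ ^ n ≤ ((Surv Kill n).card : ℝ) := by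
      have := hg 0 (Nat.zero_le n)
      rw [card_zero] at this
      simpa using this
    have h7 := hT n
    have h8 : ∑ i ∈ Finset.range (n + 1), ((DeadA (αs i) (k₀ i) (hf i) Kill n).card : ℝ) ≤
        ((2 - γ) / 4 * (Surv Kill n).card) * 2 := by
      refine (Finset.sum_le_sum h4).trans ?_
      rw [← Finset.mul_sum]
      have : 0 ≤ (2 - γ) / 4 * ((Surv Kill n).card : ℝ) := by
        have : 0 ≤ (2 - γ) / 4 := by linarith
        positivity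
      gcongr
    have h9 : (2 - γ) / 2 * γ ^ n ≤ (2 - γ) / 2 * (Surv Kill n).card := by
      have : 0 ≤ (2 - γ) / 2 := by linarith
      gcongr
    linarith)
  have hne : ∀ n, (Surv Kill n).Nonempty := by
    intro n
    have := hgrow n 0 (Nat.zero_le n)
    rw [card_zero] at this
    have h2 : (0 : ℝ) < (Surv Kill n).card := by
      refine lt_of_lt_of_le ?_ this
      have : 0 < γ ^ (n - 0) := by positivity
      simpa using this
    exact Finset.card_pos.1 (by exact_mod_cast h2)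
  obtain ⟨β, hβ, hβ2⟩ := exists_point hne
  refine ⟨β, hβ, ?_, ?_⟩
  · intro i q hq r
    obtain ⟨k, hk, h1, h2⟩ := hβ2 (lev (αs i) (k₀ i) (hf i) q)
    exact surv_dist (hpos1 i) (hsub i) hk h1 h2 hq le_rfl r
  · intro n hn
    obtain ⟨k, hk, h1, h2⟩ := hβ2 n
    exact ⟨k, h1, h2, fun hc => surv_not_kill hn hk (Or.inr hc)⟩

/-- (From the library module `R_pool_sql_team_39128cda/H/MP_c78390_an/A`.) -/
lemma cover {X : Set ℝ} (hX : IsCompact X) {s : ℝ≥0} (hs : 0 < s) (h : dimH X < s) {ε : ℝ}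
    (hε : 0 < ε) : ∃ (F : Finset ℕ) (c ρ : ℕ → ℝ), (∀ i, 0 ≤ ρ i) ∧
      X ⊆ ⋃ i ∈ F, ball (c i) (ρ i) ∧ ∑ i ∈ F, ρ i ^ (s : ℝ) < ε := by
  have h1 := hausdorffMeasure_of_dimH_lt h
  rw [Measure.hausdorffMeasure_apply] at h1
  have h2 := (le_iSup₂ (f := fun (r : ℝ≥0∞) (_ : 0 < r) => ⨅ (t : ℕ → Set ℝ) (_ : X ⊆ ⋃ n, t n)
    (_ : ∀ n, ediam (t n) ≤ r), ∑' n, ⨆ _ : (t n).Nonempty, ediam (t n) ^ (s : ℝ))
    1 one_pos).trans_lt (h1.trans_lt (ENNReal.ofReal_pos.2 (half_pos hε)))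
  simp only [iInf_lt_iff] at h2
  obtain ⟨t, h3, h5, h4⟩ := h2
  have s0 : (0 : ℝ) < s := hs
  have ht : ∀ n, ediam (t n) ≠ ⊤ := fun n => ((h5 n).trans_lt ENNReal.one_lt_top).ne
  have hd : ∀ n : ℕ, 0 ≤ diam (t n) ^ (s : ℝ) := fun n => Real.rpow_nonneg diam_nonneg _
  have hp : ∀ n : ℕ, 0 < ε / 2 / 2 / 2 ^ n := fun n => by positivity
  set ρ : ℕ → ℝ := fun n => (diam (t n) ^ (s : ℝ) + ε / 2 / 2 / 2 ^ n) ^ (s : ℝ)⁻¹
  have h6 : ∀ n, ∃ c, t n ⊆ ball c (ρ n) := fun n => by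
    rcases (t n).eq_empty_or_nonempty with e | ⟨x, hx⟩
    · exact ⟨0, by simp [e]⟩
    refine ⟨x, fun y hy => (dist_le_diam_of_mem' (ht n) hy hx).trans_lt ?_⟩
    exact (Real.lt_rpow_inv_iff_of_pos diam_nonneg (by linarith [hd n, hp n]) s0).2
      (by linarith [hp n])
  choose c hc using h6
  obtain ⟨F, hF⟩ := hX.elim_finite_subcover (fun n => ball (c n) (ρ n)) (fun _ => isOpen_ball)
    (h3.trans (iUnion_mono hc))
  refine ⟨F, c, ρ, fun n => Real.rpow_nonneg (by linarith [hd n, hp n]) _, hF, ?_⟩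
  have h7 : ∑ i ∈ F, diam (t i) ^ (s : ℝ) < ε / 2 := by
    rw [← ENNReal.ofReal_lt_ofReal_iff (half_pos hε), ENNReal.ofReal_sum_of_nonneg fun i _ => hd i]
    refine ((Finset.sum_le_sum fun i _ => ?_).trans (ENNReal.sum_le_tsum F)).trans_lt h4
    rcases (t i).eq_empty_or_nonempty with e | e
    · simp [e, Real.zero_rpow s0.ne']
    · rw [iSup_pos e, ← ENNReal.ofReal_rpow_of_nonneg diam_nonneg s0.le, diam,
        ENNReal.ofReal_toReal (ht i)]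
  rw [Finset.sum_congr rfl fun i _ => Real.rpow_inv_rpow (by linarith [hd i, hp i]) s0.ne',
    Finset.sum_add_distrib]
  linarith [sum_le_hasSum F (fun i _ => (hp i).le) (hasSum_geometric_two' (ε / 2))]

/-- The set of the points avoiding all the neighbourhoods. -/
def EE (αs : ℕ → ℝ) (k₀ : ℕ → ℕ) (hf : ℕ → ℕ → ℕ) : Set ℝ :=
  {β | β ∈ Icc (0 : ℝ) 1 ∧ ∀ i q : ℕ, 1 ≤ q → ∀ r : ℤ,
    1 / (2 : ℝ) ^ lev (αs i) (k₀ i) (hf i) q ≤ |β - r / q|}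

lemma EE_compact (αs : ℕ → ℝ) (k₀ : ℕ → ℕ) (hf : ℕ → ℕ → ℕ) : IsCompact (EE αs k₀ hf) := by
  apply isCompact_Icc.of_isClosed_subset (s := Icc (0 : ℝ) 1) _ (fun β hβ => hβ.1)
  have : EE αs k₀ hf = Icc (0 : ℝ) 1 ∩ ⋂ (i : ℕ) (q : ℕ) (_ : 1 ≤ q) (r : ℤ),
      {β : ℝ | 1 / (2 : ℝ) ^ lev (αs i) (k₀ i) (hf i) q ≤ |β - r / q|} := by
    ext β
    simp [EE]
  rw [this]
  refine isClosed_Icc.inter ?_
  refine isClosed_iInter fun i => isClosed_iInter fun q => isClosed_iInter fun _ =>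
    isClosed_iInter fun r => ?_
  exact isClosed_le continuous_const (by fun_prop)

theorem le_dimH_EE {γ : ℝ} (hγ1 : 1 < γ) (hγ2 : γ < 2) (αs : ℕ → ℝ) (k₀ : ℕ → ℕ)
    (hf : ℕ → ℕ → ℕ) (hb : ∀ i, Bad (αs i) (k₀ i)) (hH : ∀ i, Slow (hf i))
    (hpos : ∀ i a, i + 1 ≤ hf i a) (hsum : ∀ i, Summable fun a => (32 / γ ^ 6) ^ hf i a)
    (hsmall : ∀ i, 196608 * ∑' a, (32 / γ ^ 6) ^ hf i a ≤ (2 - γ) / 4 * (1 / 2) ^ i)
    (s : ℝ≥0) (hs0 : 0 < s) (hs1 : s ≤ 1) (hsγ : (2 : ℝ) ^ (s : ℝ) ≤ γ) :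
    (s : ℝ≥0∞) ≤ dimH (EE αs k₀ hf) := by
  by_contra hlt
  push Not at hlt
  have hsR : (0 : ℝ) < s := hs0
  have hsR1 : (s : ℝ) ≤ 1 := hs1
  obtain ⟨F, c, ρ, hρ0, hcov, hsumρ⟩ := cover (EE_compact αs k₀ hf) hs0 hlt
    (show 0 < (2 - γ) / 32 by linarith)
  -- small radii
  have hω : (2 - γ) / 32 ≤ 1 / 32 := by linarith
  have hρs : ∀ i ∈ F, ρ i ≤ 1 / 4 := by
    intro i hi
    by_contra hc
    push Not at hc
    have h1 : ρ i ^ (s : ℝ) ≤ ∑ i ∈ F, ρ i ^ (s : ℝ) :=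
      Finset.single_le_sum (f := fun i => ρ i ^ (s : ℝ)) (fun i _ => Real.rpow_nonneg (hρ0 i) _) hi
    have h2 : (1 / 4 : ℝ) ≤ ρ i ^ (s : ℝ) := by
      calc (1 / 4 : ℝ) = (1 / 4) ^ (1 : ℝ) := (Real.rpow_one _).symm
        _ ≤ (1 / 4) ^ (s : ℝ) := Real.rpow_le_rpow_of_exponent_ge (by norm_num) (by norm_num) hsR1
        _ ≤ ρ i ^ (s : ℝ) := Real.rpow_le_rpow (by norm_num) hc.le hsR.le
    linarith
  -- levels
  set lv : ℕ → ℕ := fun i => Nat.log 2 ⌊1 / (2 * ρ i)⌋₊ with hlv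
  have lv_spec : ∀ i ∈ F, 0 < ρ i → 1 ≤ lv i ∧ (2 : ℝ) ^ lv i * (2 * ρ i) ≤ 1 ∧
      1 ≤ 4 * ρ i * (2 : ℝ) ^ lv i := by
    intro i hi h0
    have hx : 2 ≤ 1 / (2 * ρ i) := by
      rw [le_div_iff₀ (by positivity)]
      linarith [hρs i hi]
    have hfl : 2 ≤ ⌊1 / (2 * ρ i)⌋₊ := Nat.le_floor (by exact_mod_cast hx)
    have hne : ⌊1 / (2 * ρ i)⌋₊ ≠ 0 := by omega
    have a1 : ((2 : ℝ) ^ lv i) ≤ (⌊1 / (2 * ρ i)⌋₊ : ℝ) := by
      have := Nat.pow_log_le_self 2 hne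
      exact_mod_cast this
    have a2 : (⌊1 / (2 * ρ i)⌋₊ : ℝ) + 1 ≤ (2 : ℝ) ^ (lv i + 1) := by
      have : ⌊1 / (2 * ρ i)⌋₊ + 1 ≤ 2 ^ (lv i + 1) := Nat.lt_pow_succ_log_self (by norm_num) _
      exact_mod_cast this
    have a3 := Nat.floor_le (show 0 ≤ 1 / (2 * ρ i) by positivity)
    have a4 := Nat.lt_floor_add_one (1 / (2 * ρ i))
    refine ⟨?_, ?_, ?_⟩
    · exact Nat.log_pos (by norm_num) hfl
    · have := a1.trans a3
      rwa [le_div_iff₀ (by positivity)] at this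
    · have := a4.trans_le a2
      rw [div_lt_iff₀ (by positivity), pow_succ] at this
      linarith
  set U : ℕ → ℕ → Finset ℕ := fun n i =>
    (Finset.Icc ⌊(2 : ℝ) ^ n * (c i - ρ i)⌋ (⌊(2 : ℝ) ^ n * (c i - ρ i)⌋ + 1)).image Int.toNat with hU
  set T : ℕ → Finset ℕ := fun n => (F.filter (fun i => 0 < ρ i ∧ lv i = n)).biUnion (U n) with hT
  have hUc : ∀ n i, (U n i).card ≤ 2 := by
    intro n i
    refine Finset.card_image_le.trans ?_
    rw [Int.card_Icc]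
    omega
  have hTc : ∀ n, ((T (n + 1)).card : ℝ) ≤ (2 - γ) / 2 * γ ^ n := by
    intro n
    have h1 : (T (n + 1)).card ≤ (F.filter (fun i => 0 < ρ i ∧ lv i = n + 1)).card * 2 :=
      Finset.card_biUnion_le_card_mul _ _ 2 (fun i _ => hUc _ i)
    have h2 : (((F.filter (fun i => 0 < ρ i ∧ lv i = n + 1)).card : ℕ) : ℝ) ≤
        8 * γ ^ n * ((2 - γ) / 32) := by
      have e1 : (((F.filter (fun i => 0 < ρ i ∧ lv i = n + 1)).card : ℕ) : ℝ) =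
          ∑ i ∈ F.filter (fun i => 0 < ρ i ∧ lv i = n + 1), (1 : ℝ) := by simp
      rw [e1]
      calc ∑ i ∈ F.filter (fun i => 0 < ρ i ∧ lv i = n + 1), (1 : ℝ)
          ≤ ∑ i ∈ F.filter (fun i => 0 < ρ i ∧ lv i = n + 1), (8 * γ ^ n) * ρ i ^ (s : ℝ) := by
            apply Finset.sum_le_sum
            intro i hi
            obtain ⟨hiF, h0, hl⟩ := Finset.mem_filter.1 hi
            obtain ⟨-, -, b3⟩ := lv_spec i hiF h0
            rw [hl] at b3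
            have b4 : (1 : ℝ) ≤ (4 * ρ i * (2 : ℝ) ^ (n + 1)) ^ (s : ℝ) :=
              Real.one_le_rpow b3 hsR.le
            have b5 : (4 * ρ i * (2 : ℝ) ^ (n + 1)) ^ (s : ℝ) =
                4 ^ (s : ℝ) * ρ i ^ (s : ℝ) * ((2 : ℝ) ^ (s : ℝ)) ^ (n + 1) := by
              rw [Real.mul_rpow (by positivity) (by positivity), Real.mul_rpow (by norm_num) h0.le,
                ← Real.rpow_natCast, ← Real.rpow_mul (by norm_num), ← Real.rpow_natCast,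
                ← Real.rpow_mul (by norm_num), mul_comm (((n + 1 : ℕ)) : ℝ)]
            rw [b5] at b4
            have b6 : (4 : ℝ) ^ (s : ℝ) ≤ 4 := by
              calc (4 : ℝ) ^ (s : ℝ) ≤ 4 ^ (1 : ℝ) :=
                    Real.rpow_le_rpow_of_exponent_le (by norm_num) hsR1
                _ = 4 := Real.rpow_one _
            have b7 : ((2 : ℝ) ^ (s : ℝ)) ^ (n + 1) ≤ 2 * γ ^ n := by
              rw [pow_succ]
              have c1 : ((2 : ℝ) ^ (s : ℝ)) ^ n ≤ γ ^ n := by gcongr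
              have c2 : (2 : ℝ) ^ (s : ℝ) ≤ 2 := hsγ.trans hγ2.le
              have c3 : (0 : ℝ) ≤ (2 : ℝ) ^ (s : ℝ) := by positivity
              nlinarith [pow_pos (show (0 : ℝ) < γ by linarith) n]
            have b8 : 0 ≤ ρ i ^ (s : ℝ) := Real.rpow_nonneg h0.le _
            calc (1 : ℝ) ≤ 4 ^ (s : ℝ) * ρ i ^ (s : ℝ) * ((2 : ℝ) ^ (s : ℝ)) ^ (n + 1) := b4
              _ ≤ 4 * ρ i ^ (s : ℝ) * (2 * γ ^ n) := by gcongr
              _ = _ := by ring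
        _ = (8 * γ ^ n) * ∑ i ∈ F.filter (fun i => 0 < ρ i ∧ lv i = n + 1), ρ i ^ (s : ℝ) := by
            rw [Finset.mul_sum]
        _ ≤ (8 * γ ^ n) * ∑ i ∈ F, ρ i ^ (s : ℝ) := by
            have : 0 < γ ^ n := by positivity
            gcongr
            · exact fun i _ _ => Real.rpow_nonneg (hρ0 i) _
            · exact Finset.filter_subset _ _
        _ ≤ _ := by
            have : 0 < γ ^ n := by positivity
            gcongr
    have h3 : ((T (n + 1)).card : ℝ) ≤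
        (((F.filter (fun i => 0 < ρ i ∧ lv i = n + 1)).card : ℕ) : ℝ) * 2 := by
      exact_mod_cast h1
    have h4 : 0 < γ ^ n := by positivity
    nlinarith
  obtain ⟨β, hβ, h1, h2⟩ := avoid hγ1 hγ2 αs k₀ hf hb hH hpos hsum hsmall T hTc
  have hmem : β ∈ EE αs k₀ hf := ⟨hβ, h1⟩
  obtain ⟨i, hi⟩ := mem_iUnion.1 (hcov hmem)
  obtain ⟨hiF, hball⟩ := mem_iUnion.1 hi
  rw [mem_ball, Real.dist_eq] at hball
  have hρi : 0 < ρ i := lt_of_le_of_lt (abs_nonneg _) hball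
  obtain ⟨b1, b2, -⟩ := lv_spec i hiF hρi
  obtain ⟨k, k1, k2, k3⟩ := h2 (lv i) b1
  apply k3
  rw [hT]
  simp only [Finset.mem_biUnion, Finset.mem_filter]
  refine ⟨i, ⟨hiF, hρi, rfl⟩, ?_⟩
  rw [hU]
  simp only [Finset.mem_image, Finset.mem_Icc]
  obtain ⟨p1, p2⟩ := abs_lt.1 hball
  have hp : (0 : ℝ) < 2 ^ lv i := by positivity
  rw [div_le_iff₀ hp] at k1
  rw [le_div_iff₀ hp] at k2
  refine ⟨(k : ℤ), ⟨?_, ?_⟩, by simp⟩
  · have f1 := Int.floor_le ((2 : ℝ) ^ lv i * (c i - ρ i))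
    have : ((⌊(2 : ℝ) ^ lv i * (c i - ρ i)⌋ : ℤ) : ℝ) < (((k : ℤ) + 1 : ℤ) : ℝ) := by
      push_cast
      nlinarith
    have : ⌊(2 : ℝ) ^ lv i * (c i - ρ i)⌋ < (k : ℤ) + 1 := by exact_mod_cast this
    omega
  · have f1 := Int.lt_floor_add_one ((2 : ℝ) ^ lv i * (c i - ρ i))
    have : (((k : ℤ) : ℤ) : ℝ) < ((⌊(2 : ℝ) ^ lv i * (c i - ρ i)⌋ + 2 : ℤ) : ℝ) := by
      push_cast
      nlinarith
    have : (k : ℤ) < ⌊(2 : ℝ) ^ lv i * (c i - ρ i)⌋ + 2 := by exact_mod_cast this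
    omega

end Pool.Agent.KS6_31.DB
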