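import Mathlib
import Pool.Agent.KS6_31.DB.Avoid

set_option autoImplicit false

/-! Assembly: full dimension of the points with the depth lower bound. -/

open Set Filter Topology Metric MeasureTheory
open scoped NNReal ENNReal

namespace Pool.Agent.KS6_31.DB

/-- The lower bound at one point. -/
theorem bound_of_avoid {α : ℝ} {k₀ K : ℕ} {η : ℝ} (hη : 0 < η) (hη1 : η ≤ 1) (hK : 256 ≤ K)
    (hb : Bad α k₀) {β : ℝ} (hβ : ∀ q : ℕ, 1 ≤ q → ∀ r : ℤ,
      1 / (2 : ℝ) ^ lev α k₀ (hh η K) q ≤ |β - r / q|) :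
    ∃ c : ℝ, 0 < c ∧ ∀ q : ℕ, 1 ≤ q → c ≤ q * nm (q * α) * nm (q * β) *
      (Real.log (2 + min (q * nm (q * α)) (q * nm (q * β)))) ^ (1 + η) := by
  set B : ℝ := (K : ℝ) + k₀ + 2 with hB
  have hB0 : 0 < B := by positivity
  set C : ℝ := 2 * B / Real.log 2 with hC
  have hlog2 : 0 < Real.log 2 := Real.log_pos (by norm_num)
  have hC0 : 0 < C := by positivity
  refine ⟨1 / (2 ^ k₀ * (2 * C ^ (1 + η))), by positivity, ?_⟩
  intro q hq
  have hqR : (0 : ℝ) < q := by exact_mod_cast hq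
  set l := Nat.log 2 q with hl
  set j := sj α k₀ q with hj
  set a := sa k₀ l j with ha
  set H := hh η K a with hH
  have hlev : lev α k₀ (hh η K) q = l + j + H := rfl
  have hjl : j < l + k₀ := sj_lt hb hq
  obtain ⟨hl1, hl2⟩ := sl_spec hq
  rw [← hl] at hl1 hl2
  obtain ⟨hj1, hj2⟩ := sj_spec hb hq
  rw [← hj] at hj1 hj2
  -- the distance of `q β`
  have hNβ : 1 / (2 : ℝ) ^ (j + H) ≤ nm (q * β) := by
    have h1 := hβ q hq (round ((q : ℝ) * β))
    rw [hlev] at h1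
    have e : nm (q * β) = q * |β - (round ((q : ℝ) * β) : ℝ) / q| := by
      unfold nm
      rw [← abs_of_pos hqR, ← abs_mul, abs_of_pos hqR]
      congr 1
      field_simp
    rw [e]
    calc 1 / (2 : ℝ) ^ (j + H) = 2 ^ l * (1 / (2 : ℝ) ^ (l + j + H)) := by
          rw [show l + j + H = l + (j + H) by ring, pow_add (2 : ℝ) l (j + H)]
          field_simp
      _ ≤ q * |β - (round ((q : ℝ) * β) : ℝ) / q| := by gcongr
  have hNα : (2 : ℝ) ^ j / 2 ^ k₀ ≤ q * nm (q * α) := by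
    rw [div_le_iff₀ (by positivity)]
    linarith
  have hnβ0 := nm_nonneg (q * β)
  have hnα0 := nm_nonneg (q * α)
  -- the product
  have hf : 1 / ((2 : ℝ) ^ k₀ * 2 ^ H) ≤ q * nm (q * α) * nm (q * β) := by
    calc 1 / ((2 : ℝ) ^ k₀ * 2 ^ H) = (2 : ℝ) ^ j / 2 ^ k₀ * (1 / (2 : ℝ) ^ (j + H)) := by
          rw [pow_add]
          field_simp
      _ ≤ q * nm (q * α) * nm (q * β) := by gcongr
  -- the minimum
  set M := min (q * nm (q * α)) (q * nm (q * β)) with hM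
  have haj : a ≤ j := min_le_left _ _
  have haj2 : a ≤ l + k₀ - j := min_le_right _ _
  have hM1 : (2 : ℝ) ^ a ≤ M * 2 ^ (k₀ + H) := by
    have m1 : (2 : ℝ) ^ a ≤ q * nm (q * α) * 2 ^ (k₀ + H) := by
      calc (2 : ℝ) ^ a ≤ 2 ^ j * 2 ^ H := by
            rw [← pow_add]
            exact pow_le_pow_iff2.2 (by omega)
        _ = (2 ^ j / 2 ^ k₀) * 2 ^ (k₀ + H) := by
            rw [pow_add (2 : ℝ) k₀ H]
            field_simp
        _ ≤ _ := by gcongr
    have m2 : (2 : ℝ) ^ a ≤ q * nm (q * β) * 2 ^ (k₀ + H) := by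
      calc (2 : ℝ) ^ a ≤ 2 ^ (l + k₀ - j) := pow_le_pow_iff2.2 haj2
        _ = 2 ^ l * (1 / (2 : ℝ) ^ (j + H)) * 2 ^ (k₀ + H) := by
            have e : (2 : ℝ) ^ (l + k₀ - j) * 2 ^ (j + H) = 2 ^ l * 2 ^ (k₀ + H) := by
              rw [← pow_add, ← pow_add]
              congr 1
              omega
            field_simp
            linarith
        _ ≤ _ := by gcongr
    rcases min_choice (q * nm (q * α)) (q * nm (q * β)) with h | h
    · rw [hM, h]; exact m1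
    · rw [hM, h]; exact m2
  have hM0 : 0 < M := by
    by_contra hc
    push Not at hc
    have : (0 : ℝ) < 2 ^ a := by positivity
    have h2 : M * 2 ^ (k₀ + H) ≤ 0 := mul_nonpos_of_nonpos_of_nonneg hc (by positivity)
    linarith
  set L := Real.log (2 + M) with hL
  have hL1 : Real.log 2 ≤ L := Real.log_le_log (by norm_num) (by linarith)
  have hL0 : 0 < L := lt_of_lt_of_le hlog2 hL1
  have hL2 : ((a : ℝ) - k₀ - H) * Real.log 2 ≤ L := by
    have h1 : Real.log ((2 : ℝ) ^ a) ≤ Real.log ((2 + M) * 2 ^ (k₀ + H)) := by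
      apply Real.log_le_log (by positivity)
      refine hM1.trans ?_
      gcongr
      linarith
    rw [Real.log_mul (by positivity) (by positivity), Real.log_pow, Real.log_pow] at h1
    push_cast at h1
    linarith
  -- the size of `a`
  set X : ℝ := (a : ℝ) + K with hX
  have hKR : (256 : ℝ) ≤ K := by exact_mod_cast hK
  have ha0 : (0 : ℝ) ≤ a := Nat.cast_nonneg a
  have hX256 : 256 ≤ X := by linarith
  have hXlog : 2 * Real.logb 2 X ≤ X / 2 := by
    have := logb_le X (by linarith)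
    linarith
  have hHle := hh_le hη.le hK a
  rw [← hX, ← hH] at hHle
  have hlb := logb_ge hK a
  rw [← hX] at hlb
  have hHle2 : (H : ℝ) ≤ X / 2 + 1 := by nlinarith
  have hXC : X ≤ C * L := by
    have h1 : (X / 2 - (K + k₀ + 1)) * Real.log 2 ≤ L := by
      refine le_trans ?_ hL2
      apply mul_le_mul_of_nonneg_right _ hlog2.le
      linarith
    have h2 : X * Real.log 2 ≤ 2 * B * L := by
      have h3 : (K + k₀ + 1) * Real.log 2 ≤ (K + k₀ + 1) * L := by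
        gcongr
      rw [hB]
      nlinarith
    rw [hC, div_mul_eq_mul_div, le_div_iff₀ hlog2]
    exact h2
  have h2H : (2 : ℝ) ^ H ≤ 2 * X ^ (1 + η) := by
    rw [← Real.rpow_natCast]
    calc (2 : ℝ) ^ (H : ℝ) ≤ 2 ^ ((1 + η) * Real.logb 2 X + 1) :=
          Real.rpow_le_rpow_of_exponent_le (by norm_num) hHle
      _ = 2 * X ^ (1 + η) := by
          rw [Real.rpow_add (by norm_num), Real.rpow_one, mul_comm (1 + η),
            Real.rpow_mul (by norm_num), Real.rpow_logb (by norm_num) (by norm_num) (by linarith)]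
          ring
  have hXp : X ^ (1 + η) ≤ C ^ (1 + η) * L ^ (1 + η) := by
    rw [← Real.mul_rpow hC0.le hL0.le]
    exact Real.rpow_le_rpow (by linarith) hXC (by linarith)
  have hLp : 0 < L ^ (1 + η) := Real.rpow_pos_of_pos hL0 _
  have hCp : 0 < C ^ (1 + η) := Real.rpow_pos_of_pos hC0 _
  calc 1 / (2 ^ k₀ * (2 * C ^ (1 + η)))
      = 1 / (2 ^ k₀ * (2 * (C ^ (1 + η) * L ^ (1 + η)))) * L ^ (1 + η) := by field_simp
    _ ≤ 1 / ((2 : ℝ) ^ k₀ * 2 ^ H) * L ^ (1 + η) := by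
        have : (2 : ℝ) ^ H ≤ 2 * (C ^ (1 + η) * L ^ (1 + η)) := h2H.trans (by linarith)
        gcongr
    _ ≤ q * nm (q * α) * nm (q * β) * L ^ (1 + η) := by gcongr

/-- From the exponent `1 + η` to the exponent `1 + δ`. -/
lemma bound_mono {α β η δ : ℝ} (hηδ : η ≤ δ) (h : ∃ c : ℝ, 0 < c ∧ ∀ q : ℕ, 1 ≤ q →
      c ≤ q * nm (q * α) * nm (q * β) *
      (Real.log (2 + min (q * nm (q * α)) (q * nm (q * β)))) ^ (1 + η)) :
    ∃ c : ℝ, 0 < c ∧ ∀ q : ℕ, 1 ≤ q → c ≤ q * nm (q * α) * nm (q * β) *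
      (Real.log (2 + min (q * nm (q * α)) (q * nm (q * β)))) ^ (1 + δ) := by
  obtain ⟨c, hc, h⟩ := h
  have hlog2 : 0 < Real.log 2 := Real.log_pos (by norm_num)
  refine ⟨c * Real.log 2 ^ (δ - η), by positivity, ?_⟩
  intro q hq
  have h1 := h q hq
  have n1 := nm_nonneg (q * α)
  have n2 := nm_nonneg (q * β)
  have hM : 0 ≤ min (q * nm (q * α)) (q * nm (q * β)) := le_min (by positivity) (by positivity)
  set L := Real.log (2 + min (q * nm (q * α)) (q * nm (q * β))) with hL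
  have hL1 : Real.log 2 ≤ L := Real.log_le_log (by norm_num) (by linarith)
  have hL0 : 0 < L := lt_of_lt_of_le hlog2 hL1
  calc c * Real.log 2 ^ (δ - η) ≤ (q * nm (q * α) * nm (q * β) * L ^ (1 + η)) * L ^ (δ - η) := by
        apply mul_le_mul h1 _ (by positivity) (by positivity)
        exact Real.rpow_le_rpow hlog2.le hL1 (by linarith)
    _ = q * nm (q * α) * nm (q * β) * L ^ (1 + δ) := by
        rw [mul_assoc, ← Real.rpow_add hL0]
        congr 2
        ring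

lemma exists_gamma {η s : ℝ} (hη : 0 < η) (hs : s < 1) :
    ∃ γ : ℝ, 1 < γ ∧ γ < 2 ∧ (2 : ℝ) ^ s ≤ γ ∧ 32 / γ ^ 6 < 1 ∧
      1 < (1 + η) * Real.logb 2 (1 / (32 / γ ^ 6)) := by
  have h2s : (2 : ℝ) ^ s < 2 := by
    calc (2 : ℝ) ^ s < 2 ^ (1 : ℝ) := Real.rpow_lt_rpow_of_exponent_lt (by norm_num) hs
      _ = 2 := Real.rpow_one _
  have c1 : ContinuousAt (fun γ : ℝ => 32 / γ ^ 6) 2 := by
    apply ContinuousAt.div continuousAt_const (by fun_prop)
    norm_num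
  have c2 : ContinuousAt (fun γ : ℝ => (1 + η) * (Real.log (1 / (32 / γ ^ 6)) / Real.log 2)) 2 := by
    apply ContinuousAt.mul continuousAt_const
    apply ContinuousAt.div _ continuousAt_const (Real.log_pos (by norm_num)).ne'
    apply ContinuousAt.log
    · apply ContinuousAt.div continuousAt_const c1
      norm_num
    · norm_num
  have v2 : (1 + η) * (Real.log (1 / (32 / (2 : ℝ) ^ 6)) / Real.log 2) = 1 + η := by
    rw [show (1 / (32 / (2 : ℝ) ^ 6)) = 2 by norm_num, div_self (Real.log_pos (by norm_num)).ne',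
      mul_one]
  have e1 : ∀ᶠ γ in 𝓝[<] (2 : ℝ), (32 / γ ^ 6 : ℝ) < 1 :=
    (c1.eventually (gt_mem_nhds (by norm_num : (32 / (2 : ℝ) ^ 6 : ℝ) < 1))).filter_mono
      nhdsWithin_le_nhds
  have e2 : ∀ᶠ γ in 𝓝[<] (2 : ℝ), (1 : ℝ) < (1 + η) * (Real.log (1 / (32 / γ ^ 6)) / Real.log 2) :=
    (c2.eventually (lt_mem_nhds (by simp only; rw [v2]; linarith))).filter_mono nhdsWithin_le_nhds
  have e3 : ∀ᶠ γ in 𝓝[<] (2 : ℝ), max 1 ((2 : ℝ) ^ s) < γ :=
    (lt_mem_nhds (max_lt (by norm_num) h2s)).filter_mono nhdsWithin_le_nhds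
  have e4 : ∀ᶠ γ in 𝓝[<] (2 : ℝ), γ < 2 := self_mem_nhdsWithin
  obtain ⟨γ, h1, h2, h3, h4⟩ := (e1.and (e2.and (e3.and e4))).exists
  exact ⟨γ, (le_max_left _ _).trans_lt h3, h4, ((le_max_right _ _).trans_lt h3).le, h1, h2⟩

theorem main (A : Set ℝ) (hA : A.Countable)
    (hbad : ∀ α ∈ A, ∃ c : ℝ, 0 < c ∧ ∀ q : ℕ, 1 ≤ q → c ≤ q * nm (q * α)) (δ : ℝ) (hδ : 0 < δ) :
    dimH {β : ℝ | ∀ α ∈ A, ∃ c : ℝ, 0 < c ∧ ∀ q : ℕ, 1 ≤ q → c ≤ q * nm (q * α) * nm (q * β) *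
      (Real.log (2 + min (q * nm (q * α)) (q * nm (q * β)))) ^ (1 + δ)} = 1 := by
  refine le_antisymm ((dimH_mono (subset_univ _)).trans Real.dimH_univ.le) ?_
  rcases A.eq_empty_or_nonempty with rfl | hne
  · simp [Real.dimH_univ]
  obtain ⟨αs, rfl⟩ := hA.exists_eq_range hne
  have hbad' : ∀ i, ∃ k₀ : ℕ, Bad (αs i) k₀ := by
    intro i
    obtain ⟨c, hc, h⟩ := hbad (αs i) ⟨i, rfl⟩
    obtain ⟨k, hk⟩ := pow_unbounded_of_one_lt (1 / c) (show (1 : ℝ) < 2 by norm_num)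
    refine ⟨k, fun q hq => ?_⟩
    have h1 := h q hq
    rw [div_lt_iff₀ hc] at hk
    calc (1 : ℝ) ≤ 2 ^ k * c := hk.le
      _ ≤ _ := by gcongr
  choose k₀ hb using hbad'
  set η := min δ 1 with hη
  have hη0 : 0 < η := lt_min hδ one_pos
  have hη1 : η ≤ 1 := min_le_right _ _
  apply ENNReal.le_of_forall_nnreal_lt
  intro s hs
  have hs1 : s < 1 := by exact_mod_cast hs
  rcases eq_or_lt_of_le (zero_le : (0 : ℝ≥0) ≤ s) with h0 | h0
  · rw [← h0]
    simp
  obtain ⟨γ, hγ1, hγ2, hγs, hρ1, hρ2⟩ := exists_gamma (s := (s : ℝ)) hη0 (by exact_mod_cast hs1)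
  have hρ0 : 0 < 32 / γ ^ 6 := by positivity
  have hKex : ∀ i : ℕ, ∃ K : ℕ, max 256 (2 ^ (i + 1)) ≤ K ∧
      (Summable fun a => (32 / γ ^ 6) ^ hh η K a) ∧
      ∑' a, (32 / γ ^ 6) ^ hh η K a ≤ (2 - γ) / 4 * (1 / 2) ^ i / 196608 := by
    intro i
    apply tail_small hρ0 hρ1 hρ2
    have : 0 < 2 - γ := by linarith
    positivity
  choose K hK1 hK2 hK3 using hKex
  have hK256 : ∀ i, 256 ≤ K i := fun i => (le_max_left _ _).trans (hK1 i)
  have hKi : ∀ i, 2 ^ (i + 1) ≤ K i := fun i => (le_max_right _ _).trans (hK1 i)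
  have hmain := le_dimH_EE hγ1 hγ2 αs k₀ (fun i => hh η (K i)) hb
    (fun i => hh_slow hη0.le hη1 (hK256 i)) (fun i a => hh_ge_index hη0.le (hKi i) a) hK2
    (fun i => by
      have := hK3 i
      rw [le_div_iff₀ (by norm_num)] at this
      linarith) s h0 hs1.le hγs
  refine hmain.trans (dimH_mono ?_)
  intro β hβ
  rintro α ⟨i, rfl⟩
  exact bound_mono (min_le_left δ 1) (bound_of_avoid hη0 hη1 (hK256 i) (hb i) (hβ.2 i))

end Pool.Agent.KS6_31.DB
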