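import Mathlib
import Pool.Agent.KS6_31.DB.Main

set_option autoImplicit false

/-! Invariance under rational translations and the local version. -/

open Set Filter Topology Metric MeasureTheory
open scoped NNReal ENNReal Pointwise

namespace Pool.Agent.KS6_31.DB

/-- The lower bound for one pair. -/
def LB (δ α β : ℝ) : Prop := ∃ c : ℝ, 0 < c ∧ ∀ q : ℕ, 1 ≤ q → c ≤ q * nm (q * α) * nm (q * β) *
  (Real.log (2 + min (q * nm (q * α)) (q * nm (q * β)))) ^ (1 + δ)

lemma nm_mul_le (m : ℕ) (x : ℝ) : nm (m * x) ≤ m * nm x := by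
  have h := nm_le (m * x) (m * round x)
  refine h.trans (le_of_eq ?_)
  unfold nm
  push_cast
  rw [← mul_sub, abs_mul, Nat.abs_cast]

lemma nm_sub_int (x : ℝ) (z : ℤ) : nm (x - z) = nm x := by
  unfold nm
  rw [round_sub_intCast]
  push_cast
  congr 1
  ring

lemma LB_add {δ α β : ℝ} (hδ : 0 < δ) (h : LB δ α β) (r : ℚ) : LB δ α (β + r) := by
  obtain ⟨c, hc, h⟩ := h
  set m : ℕ := r.den with hm
  have hm1 : 1 ≤ m := r.den_pos
  have hmR : (1 : ℝ) ≤ m := by exact_mod_cast hm1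
  have hlog2 : 0 < Real.log 2 := Real.log_pos (by norm_num)
  have hlm : 0 ≤ Real.log m := Real.log_nonneg hmR
  set D : ℝ := 2 * Real.log m / Real.log 2 + 1 with hD
  have hD1 : 0 < D := by positivity
  refine ⟨c / ((m : ℝ) ^ 3 * D ^ (1 + δ)), by positivity, ?_⟩
  intro q hq
  have h1 := h (m * q) (by nlinarith)
  have hqR : (1 : ℝ) ≤ q := by exact_mod_cast hq
  have a1 : nm (((m * q : ℕ) : ℝ) * α) ≤ m * nm (q * α) := by
    have := nm_mul_le m (q * α)
    push_cast
    rwa [mul_assoc]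
  have a2 : nm (((m * q : ℕ) : ℝ) * β) ≤ m * nm (q * (β + r)) := by
    have h2 := nm_mul_le m (q * (β + r))
    have e : (m : ℝ) * (q * (β + r)) - ((q * r.num : ℤ) : ℝ) = ((m * q : ℕ) : ℝ) * β := by
      have hr : (r : ℝ) * m = r.num := by
        have := Rat.mul_den_eq_num r
        exact_mod_cast this
      push_cast
      linear_combination (q : ℝ) * hr
    rw [← e, nm_sub_int]
    exact h2
  have n1 := nm_nonneg (q * α)
  have n2 := nm_nonneg (q * (β + r))
  have n3 := nm_nonneg (((m * q : ℕ) : ℝ) * α)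
  have n4 := nm_nonneg (((m * q : ℕ) : ℝ) * β)
  set M := min (q * nm (q * α)) (q * nm (q * (β + r))) with hM
  have hM0 : 0 ≤ M := le_min (by positivity) (by positivity)
  have a3 : min (((m * q : ℕ) : ℝ) * nm (((m * q : ℕ) : ℝ) * α))
      (((m * q : ℕ) : ℝ) * nm (((m * q : ℕ) : ℝ) * β)) ≤ (m : ℝ) ^ 2 * M := by
    rw [hM, mul_min_of_nonneg _ _ (by positivity)]
    apply min_le_min
    · calc ((m * q : ℕ) : ℝ) * nm (((m * q : ℕ) : ℝ) * α) ≤ ((m * q : ℕ) : ℝ) * (m * nm (q * α)) := by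
            gcongr
        _ = _ := by push_cast; ring
    · calc ((m * q : ℕ) : ℝ) * nm (((m * q : ℕ) : ℝ) * β) ≤
            ((m * q : ℕ) : ℝ) * (m * nm (q * (β + r))) := by gcongr
        _ = _ := by push_cast; ring
  have hL1 : Real.log 2 ≤ Real.log (2 + M) := Real.log_le_log (by norm_num) (by linarith)
  have hM' : 0 ≤ min (((m * q : ℕ) : ℝ) * nm (((m * q : ℕ) : ℝ) * α))
      (((m * q : ℕ) : ℝ) * nm (((m * q : ℕ) : ℝ) * β)) := le_min (by positivity) (by positivity)
  have a4 : Real.log (2 + min (((m * q : ℕ) : ℝ) * nm (((m * q : ℕ) : ℝ) * α))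
      (((m * q : ℕ) : ℝ) * nm (((m * q : ℕ) : ℝ) * β))) ≤ D * Real.log (2 + M) := by
    calc _ ≤ Real.log ((m : ℝ) ^ 2 * (2 + M)) := by
          apply Real.log_le_log (by linarith)
          nlinarith
      _ = 2 * Real.log m + Real.log (2 + M) := by
          rw [Real.log_mul (by positivity) (by positivity), Real.log_pow]
          norm_num
      _ ≤ D * Real.log (2 + M) := by
          have : 2 * Real.log m ≤ 2 * Real.log m / Real.log 2 * Real.log (2 + M) := by
            rw [div_mul_eq_mul_div, le_div_iff₀ hlog2]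
            gcongr
          rw [hD, add_mul, one_mul]
          linarith
  have a5 : 0 ≤ Real.log (2 + min (((m * q : ℕ) : ℝ) * nm (((m * q : ℕ) : ℝ) * α))
      (((m * q : ℕ) : ℝ) * nm (((m * q : ℕ) : ℝ) * β))) := Real.log_nonneg (by linarith)
  have hL0 : 0 < Real.log (2 + M) := lt_of_lt_of_le hlog2 hL1
  rw [div_le_iff₀ (by positivity)]
  calc c ≤ _ := h1
    _ ≤ ((m * q : ℕ) : ℝ) * (m * nm (q * α)) * (m * nm (q * (β + r))) *
        (D * Real.log (2 + M)) ^ (1 + δ) := by gcongr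
    _ = _ := by
        rw [Real.mul_rpow hD1.le hL0.le]
        push_cast
        ring

theorem main_local (A : Set ℝ) (hA : A.Countable)
    (hbad : ∀ α ∈ A, ∃ c : ℝ, 0 < c ∧ ∀ q : ℕ, 1 ≤ q → c ≤ q * nm (q * α)) (δ : ℝ) (hδ : 0 < δ)
    (U : Set ℝ) (hU : IsOpen U) (hne : U.Nonempty) :
    dimH ({β : ℝ | ∀ α ∈ A, LB δ α β} ∩ U) = 1 := by
  set S := {β : ℝ | ∀ α ∈ A, LB δ α β} with hS
  refine le_antisymm ((dimH_mono (subset_univ _)).trans Real.dimH_univ.le) ?_
  have h1 : dimH S = 1 := main A hA hbad δ hδ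
  rw [← h1]
  obtain ⟨u, hu⟩ := hne
  obtain ⟨ε, hε, hball⟩ := Metric.isOpen_iff.1 hU u hu
  have hcov : S ⊆ ⋃ r : ℚ, (fun x : ℝ => x + r) '' (S ∩ U) := by
    intro β hβ
    obtain ⟨r, hr1, hr2⟩ := exists_rat_btwn (show β - u - ε < β - u + ε by linarith)
    rw [mem_iUnion]
    refine ⟨r, β + ((-r : ℚ) : ℝ), ⟨fun α hα => LB_add hδ (hβ α hα) (-r), hball ?_⟩, ?_⟩
    · rw [mem_ball, Real.dist_eq, abs_lt]
      push_cast
      constructor <;> linarith
    · push_cast
      ring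
  refine (dimH_mono hcov).trans ?_
  rw [dimH_iUnion]
  apply iSup_le
  intro r
  exact ((isometry_add_right (r : ℝ)).dimH_image _).le

end Pool.Agent.KS6_31.DB
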